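import Pool.Agent.RD.Cst
import Pool.Agent.PO.Gn
import Pool.Agent.RH.PADF

/-!
# ANSDEC: the additional axioms are decidable in polynomial time
-/

namespace Pool.Agent.RD

open Pool.Agent.H19 (T PolyTime PolyDec PolyNat PolyN Tm scons bn bl ofBool encL vec3)
open Pool.Agent.RO
open Pool.Agent.RH (padF unpad)

namespace ANSDEC

theorem polyN_odd : PolyN (fun a => 2 * bn a.right + 1) := by
  have h : PolyTime (fun a : T => T.node (T.node T.leaf T.leaf) (bl (bn a.right))) :=
    (PolyTime.const _).node (H19.canon_polyTime.comp PolyTime.id.right)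
  exact h.congr fun a => (PO.GNaux.bl_two_mul_add_one _).symm

theorem polyN_num : PolyN (fun z => 2 * z.num) := by
  have h0 : PolyN (fun z : T => T.gn z 1) := PO.GN_thm (fun z => z) 1 one_ne_zero PolyTime.id
  have h : PolyTime (fun z : T => T.node T.leaf (bl (T.gn z 1))) := PolyTime.leaf.node h0
  exact h.congr fun z => (PO.GNaux.bl_two_mul (T.gn_size z 1 one_ne_zero).2).symm

theorem cond_dec : DecOn Set.univ (fun O a => (O (2 * bn a.right + 1) = true ↔ a.left ≠ T.leaf)) := by
  have h1 : DecOn Set.univ (fun O a => O (2 * bn a.right + 1) = true) := DecOn.bit polyN_odd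
  have h2 : DecOn Set.univ (fun (_ : Om) a => a.left = T.leaf) :=
    DecOn.of_dec (PolyDec.eq_leaf PolyTime.id.left)
  refine ((h1.and h2.not).or (h1.not.and h2)).congr fun O _ a => ?_
  by_cases hO : O (2 * bn a.right + 1) = true <;> by_cases ha : a.left = T.leaf <;> simp [hO, ha]

theorem ans_dec : DecOn Set.univ Ans := by
  have hl : PolyTime (fun z : T => encL (z.right.left.toL)) :=
    PolyTime.id.right.left.congr fun z => (H19.encL_toL _).symm
  have h1 := DecOn.all cond_dec hl
  have h2 : DecOn Set.univ (fun O z => O (2 * T.num z) = true) := DecOn.bit polyN_num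
  exact (h1.and h2).congr fun O _ z => Iff.rfl

end ANSDEC

open ANSDEC in
theorem ANSDEC_thm : Stmt_ANSDEC := by
  have hu := RH.PADF_thm.polyUn
  have h1 : PolyDec (fun x => (padF (unfalsum x) (decFm (unfalsum x).left)).enc = x) := by
    have h := RH.PADF_thm.poly.comp (hu.node hu.left)
    exact PolyDec.eq h PolyTime.id
  exact (DecOn.of_dec h1).and (ans_dec.comp hu)

end Pool.Agent.RD
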