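import Pool.Agent.RD.Cst
import Pool.Agent.RH.PADF

/-!
# CONSTR: proofs of forced reflection sentences
-/

namespace Pool.Agent.RD

open Pool.Agent.H19 (T PolyTime PolyDec PolyNat PolyN Tm scons bn bl ofBool encL vec3 tt)
open Pool.Agent.RO
open Pool.Agent.RH (padF unpad PadF PADF_thm)

namespace CONSTR

/-- The padding. -/
def zz (P μ : Fm) (s : T) (k n : ℕ) : T :=
  T.node (rfn P μ n).enc (T.node s (T.unary (2 * (n + 2) ^ k + 10)))

/-- The function that constructs the proofs. -/
def ff (P μ : Fm) (s : T) (k : ℕ) (x : T) : T :=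
  encProof (unpad (zz P μ s k x.len) (rfn P μ x.len))

theorem rfn_poly (P μ : Fm) : PolyTime (fun x => (rfn P μ x.len).enc) := by
  have h := rfn_polyTime μ (PolyTime.const P.enc) (PolyNat.len PolyTime.id)
  exact h.congr fun x => by rw [decFm_enc]

theorem zz_poly (P μ : Fm) (s : T) (k : ℕ) : PolyTime (fun x => zz P μ s k x.len) := by
  have hl : PolyNat (fun x : T => x.len) := PolyNat.len PolyTime.id
  have h1 : PolyNat (fun x : T => 2 * (x.len + 2) ^ k + 10) :=
    ((PolyNat.const 2).mul ((hl.add (PolyNat.const 2)).pow k)).add (PolyNat.const 10)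
  exact (rfn_poly P μ).node ((PolyTime.const s).node h1.unary)

theorem ff_poly (P μ : Fm) (s : T) (k : ℕ) : PolyTime (ff P μ s k) := by
  have c : ∀ a : T, PolyTime (fun _ => a) := fun a => PolyTime.const a
  have hz := zz_poly P μ s k
  have hr := rfn_poly P μ
  have ht := H19.tt_polyTime.comp hz
  have he : PolyTime (fun x => (Fm.eq (tt (zz P μ s k x.len)) (tt (zz P μ s k x.len))).enc) :=
    (c _).node (ht.node ht)
  have hp : PolyTime (fun x => (padF (zz P μ s k x.len) (rfn P μ x.len)).enc) :=
    (c _).node (he.node hr)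
  exact ((c _).node hp).node (((c _).node ht).node (((c _).node (he.node hr)).node (c _)))

theorem join_agree {A B' G' : Om} {m K : ℕ} (hB : ∀ k < m, B' k = A k) (hm : 2 ^ K ≤ m)
    (i : ℕ) (hi : i.size ≤ K) : join B' G' i = join A G' i := by
  unfold join
  split_ifs with h
  · apply hB
    have h1 : i < 2 ^ K := Nat.size_le.1 hi
    omega
  · rfl

end CONSTR

open CONSTR in
/-- CONSTR. -/
theorem CONSTR_thm (h : Stmt_RFNLOC) : Stmt_CONSTR := by
  intro A hA G P μ hP hμ hP4 hμ4 s hs hall
  obtain ⟨k, hk⟩ := h P μ hP hμ hP4 hμ4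
  refine ⟨ff P μ s k, ff_poly P μ s k, fun n => ?_⟩
  refine ⟨unpad (zz P μ s k n) (rfn P μ n), by unfold ff; rw [H19.T.len_unary], ?_⟩
  apply PADF_thm.proof
  refine Or.inr (Or.inr ⟨zz P μ s k n, ?_, ?_, ?_⟩)
  · have : decFm (zz P μ s k n).left = rfn P μ n := by
      simp only [zz, H19.T.left_node, decFm_enc]
    rw [this]
  · intro a ha
    have h1 : (zz P μ s k n).right.left = s := by
      simp only [zz, H19.T.right_node, H19.T.left_node]
    rw [h1] at ha
    have h2 := hs a ha
    have h3 : join A G (2 * bn a.right + 1) = G (bn a.right) := by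
      unfold join
      rw [if_neg (by omega)]
      congr 1
      omega
    rw [h3]
    exact h2
  · have h3 : join A G (2 * (zz P μ s k n).num) = A (zz P μ s k n).num := by
      unfold join
      rw [if_pos (by omega)]
      congr 1
      omega
    rw [h3, hA]
    refine ⟨zz P μ s k n, rfl, ?_⟩
    have h1 : decFm (zz P μ s k n).left = rfn P μ n := by
      simp only [zz, H19.T.left_node, decFm_enc]
    have h2 : (zz P μ s k n).right.left = s := by
      simp only [zz, H19.T.right_node, H19.T.left_node]
    rw [h1, h2]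
    intro B' hB' G' hG' v
    have hsz : 2 ^ ((n + 2) ^ k) ≤ (zz P μ s k n).num := by
      have e1 := H19.T.num_size (zz P μ s k n)
      have e2 : (n + 2) ^ k < (zz P μ s k n).size := by
        simp only [zz, T.size, H19.T.size_unary]
        omega
      have e3 : (n + 2) ^ k < (zz P μ s k n).num.size := by omega
      exact Nat.lt_size.1 e3
    exact (hk n (join A G') (join B' G')
      (fun i hi => join_agree hB' hsz i hi) v v).1 (hall G' hG' n v)

end Pool.Agent.RD
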