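import Pool.Agent.RD.Cst
import Pool.Agent.RH.RES
import Pool.Agent.RH.PUSH

/-!
# COUNT: a union of few events is not the event that no target is dead
-/

set_option autoImplicit false

namespace Pool.Agent.RD

open Pool.Agent.RH (Cfg LocF dead res Stmt_FIN)

namespace COUNT

/-- The number of configurations in which a given target is dead. -/
theorem card_dead (N Y b : ℕ) (hb : 2 ≤ b) (s : Fin b) (x : Fin N) :
    ((dead (N := N) (Y := Y) s x).ncard : ℝ) =
      (1 - 1 / (b : ℝ)) ^ Y * Nat.card (Cfg N Y (Fin b)) := by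
  have h := RH.RES_thm RH.PUSH_thm N Y (Fin b) s x Set.univ (by simpa using hb)
  have h1 : Nat.card {p : Cfg N Y (Fin b) × Cfg N Y {c : Fin b // c ≠ s} //
      res s {x} p.1 p.2 ∈ (Set.univ : Set (Cfg N Y (Fin b)))} =
      Nat.card (Cfg N Y (Fin b)) * Nat.card (Cfg N Y {c : Fin b // c ≠ s}) := by
    rw [← Nat.card_prod]
    exact Nat.card_congr (Equiv.subtypeUnivEquiv fun _ => Set.mem_univ _)
  have h2 : Nat.card {h : Cfg N Y (Fin b) // h ∈ (Set.univ : Set (Cfg N Y (Fin b))) ∧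
      h ∈ dead s x} = (dead (N := N) (Y := Y) s x).ncard := by
    rw [← Nat.card_coe_set_eq]
    refine Nat.card_congr (Equiv.subtypeEquivRight fun h => ?_)
    simp
  rw [h1, h2, Fintype.card_fin] at h
  have h3 : (0 : ℝ) < Nat.card (Cfg N Y {c : Fin b // c ≠ s}) := by
    have : Nonempty {c : Fin b // c ≠ s} := by
      haveI : Nontrivial (Fin b) := Fin.nontrivial_iff_two_le.2 hb
      obtain ⟨c, hc⟩ := exists_ne s
      exact ⟨⟨c, hc⟩⟩
    have : 0 < Nat.card (Cfg N Y {c : Fin b // c ≠ s}) := Nat.card_pos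
    exact_mod_cast this
  have h4 : ((dead (N := N) (Y := Y) s x).ncard : ℝ) *
      Nat.card (Cfg N Y {c : Fin b // c ≠ s}) =
      ((1 - 1 / (b : ℝ)) ^ Y * Nat.card (Cfg N Y (Fin b))) *
        Nat.card (Cfg N Y {c : Fin b // c ≠ s}) := by
    rw [← h]
    push_cast
    ring
  exact mul_right_cancel₀ h3.ne' h4

/-- The expected number of dead targets is small. -/
theorem small (N Y b : ℕ) (hb : 8 ≤ b) (hN : 4 ≤ N) (hY : b * N ≤ Y) :
    0 < (1 - 1 / (b : ℝ)) ^ Y ∧ (N : ℝ) * (1 - 1 / (b : ℝ)) ^ Y ≤ 1 / 2 := by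
  have hb0 : (8 : ℝ) ≤ b := by exact_mod_cast hb
  have h1 : (0 : ℝ) < 1 - 1 / (b : ℝ) := by
    have : 1 / (b : ℝ) ≤ 1 / 8 := one_div_le_one_div_of_le (by norm_num) hb0
    linarith
  refine ⟨pow_pos h1 _, ?_⟩
  have h2 : (1 - 1 / (b : ℝ)) ^ Y ≤ Real.exp (-(N : ℝ)) := by
    calc (1 - 1 / (b : ℝ)) ^ Y ≤ Real.exp (-(1 / (b : ℝ))) ^ Y :=
          pow_le_pow_left₀ h1.le (Real.one_sub_le_exp_neg _) _
      _ = Real.exp (Y * (-(1 / (b : ℝ)))) := (Real.exp_nat_mul _ _).symm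
      _ ≤ Real.exp (-(N : ℝ)) := by
          apply Real.exp_le_exp.2
          have h3 : (N : ℝ) ≤ Y / b := by
            rw [le_div_iff₀ (by linarith)]
            have : ((b * N : ℕ) : ℝ) ≤ Y := by exact_mod_cast hY
            push_cast at this
            linarith
          have h4 : (Y : ℝ) * (-(1 / (b : ℝ))) = -(Y / b) := by ring
          rw [h4]
          linarith
  have h5 : 2 * (N : ℝ) ≤ Real.exp N := by
    have h6 := Real.quadratic_le_exp_of_nonneg (x := (N : ℝ)) (by positivity)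
    have h7 : (4 : ℝ) ≤ N := by exact_mod_cast hN
    nlinarith
  calc (N : ℝ) * (1 - 1 / (b : ℝ)) ^ Y ≤ N * Real.exp (-(N : ℝ)) :=
        mul_le_mul_of_nonneg_left h2 (by positivity)
    _ ≤ 1 / 2 := by
        rw [Real.exp_neg, ← div_eq_mul_inv, div_le_div_iff₀ (Real.exp_pos _) (by norm_num)]
        linarith

end COUNT

open COUNT in
theorem COUNT_thm (h : Stmt_FIN) : Stmt_COUNT := by
  intro N Y w n hw hwN hY hn Q s hQ
  by_contra hcon
  have hcon' : ∀ h : Cfg N Y (Fin (8 * w)), (∃ i < n, h ∈ Q i) ↔ ∀ x, h ∉ dead s x := by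
    intro g
    by_contra hg
    exact hcon ⟨g, hg⟩
  obtain ⟨hq0, hq⟩ := small N Y (8 * w) (by omega) (by omega) hY
  have hcard : (Fintype.card (Fin (8 * w)) : ℝ) = ((8 * w : ℕ) : ℝ) := by
    rw [Fintype.card_fin]
  have F := h N Y (Fin (8 * w)) s w n hw (by simp) hwN (by rw [hcard]; linarith)
    (fun _ => Set.univ) Q (fun i _ g _ => ⟨∅, by simp, fun _ _ => Set.mem_univ _⟩) hQ
  rw [hcard] at F
  set q : ℝ := (1 - 1 / ((8 * w : ℕ) : ℝ)) ^ Y with hqd
  set A : Set (Cfg N Y (Fin (8 * w))) := {g | ∃ i < n, g ∈ Q i} with hA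
  have hA1 : Nat.card {g : Cfg N Y (Fin (8 * w)) //
      ∃ i < n, g ∈ (Set.univ : Set (Cfg N Y (Fin (8 * w)))) ∧ g ∈ Q i} = A.ncard := by
    rw [← Nat.card_coe_set_eq]
    refine Nat.card_congr (Equiv.subtypeEquivRight fun g => ?_)
    simp [hA]
  have hA2 : Nat.card {g : Cfg N Y (Fin (8 * w)) //
      (∃ i < n, g ∈ (Set.univ : Set (Cfg N Y (Fin (8 * w)))) ∧ g ∈ Q i) ∧
        ∃ x, g ∈ dead s x} = 0 := by
    have : IsEmpty {g : Cfg N Y (Fin (8 * w)) //
      (∃ i < n, g ∈ (Set.univ : Set (Cfg N Y (Fin (8 * w)))) ∧ g ∈ Q i) ∧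
        ∃ x, g ∈ dead s x} := by
      refine ⟨fun ⟨g, ⟨i, hi, _, hg⟩, x, hx⟩ => ?_⟩
      exact (hcon' g).1 ⟨i, hi, hg⟩ x hx
    exact Nat.card_of_isEmpty
  rw [hA1, hA2] at F
  have hC : 0 < Nat.card (Cfg N Y (Fin (8 * w))) := by
    have : Nonempty (Fin (8 * w)) := ⟨s⟩
    exact Nat.card_pos
  set C : ℕ := Nat.card (Cfg N Y (Fin (8 * w))) with hCd
  have hC' : (0 : ℝ) < C := by exact_mod_cast hC
  -- all configurations
  have hcov : (C : ℝ) ≤ A.ncard + N * q * C := by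
    have h1 : C ≤ A.ncard + ∑ x : Fin N, (dead (Y := Y) s x).ncard := by
      have h2 : (Set.univ : Set (Cfg N Y (Fin (8 * w)))) ⊆ A ∪ ⋃ x : Fin N, dead s x := by
        intro g _
        by_cases hg : ∀ x, g ∉ dead s x
        · exact Or.inl ((hcon' g).2 hg)
        · push Not at hg
          exact Or.inr (Set.mem_iUnion.2 hg)
      calc C = (Set.univ : Set (Cfg N Y (Fin (8 * w)))).ncard := (Set.ncard_univ _).symm
        _ ≤ (A ∪ ⋃ x : Fin N, dead s x).ncard := Set.ncard_le_ncard h2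
        _ ≤ A.ncard + (⋃ x : Fin N, dead (Y := Y) s x).ncard := Set.ncard_union_le _ _
        _ ≤ _ := Nat.add_le_add_left (Set.ncard_iUnion_le_of_fintype _) _
    have h3 : (C : ℝ) ≤ A.ncard + ∑ x : Fin N, ((dead (Y := Y) s x).ncard : ℝ) := by
      exact_mod_cast h1
    have h4 : ∑ x : Fin N, ((dead (Y := Y) s x).ncard : ℝ) = N * q * C := by
      rw [Finset.sum_congr rfl fun x _ => card_dead N Y (8 * w) (by omega) s x]
      rw [Finset.sum_const, Finset.card_univ, Fintype.card_fin, nsmul_eq_mul]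
      ring
    linarith
  have hN0 : (0 : ℝ) < N := by
    have : 0 < N := by omega
    exact_mod_cast this
  have hNq : 0 < (N : ℝ) * q := mul_pos hN0 hq0
  -- the exponential factor
  set E : ℕ := 2 ^ (N / (32 * w)) with hE
  have hE0 : (0 : ℝ) < E := by
    have : 0 < E := by rw [hE]; positivity
    exact_mod_cast this
  have hexp : (1 / 2 : ℝ) ^ (N / (32 * w)) = 1 / E := by
    rw [hE]
    push_cast
    rw [one_div_pow]
  have hn' : (8 : ℝ) * n < E := by exact_mod_cast hn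
  have h5 : (2 : ℝ) * n * (1 / 2) ^ (N / (32 * w)) < 1 / 4 := by
    rw [hexp, mul_one_div, div_lt_div_iff₀ hE0 (by norm_num)]
    linarith
  have h6 : (A.ncard : ℝ) ≤ 2 * n * (1 / 2) ^ (N / (32 * w)) * C := by
    have h7 : (N : ℝ) * q * A.ncard ≤
        N * q * (2 * n * (1 / 2) ^ (N / (32 * w)) * C) := by
      have := F
      push_cast at this ⊢
      linarith
    exact le_of_mul_le_mul_left h7 hNq
  have h8 : (2 : ℝ) * n * (1 / 2) ^ (N / (32 * w)) * C < 1 / 4 * C :=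
    mul_lt_mul_of_pos_right h5 hC'
  have h9 : (N : ℝ) * q * C ≤ 1 / 2 * C := mul_le_mul_of_nonneg_right hq hC'.le
  linarith

end Pool.Agent.RD
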