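import Pool.Agent.RD.Cst
import Pool.Agent.RH.LOCAL

/-!
# DIAG: below every condition some oracle is not defined
-/

namespace Pool.Agent.RD

open Pool.Agent.H19 (T PolyTime PolyDec PolyNat PolyN Tm scons bn bl ofBool encL vec3)
open Pool.Agent.RO
open Pool.Agent.RH (padF unpad Cfg LocF dead Stmt_FIN)

namespace DIAG

/-! ### Trees of bounded size -/

/-- The trees of size at most `S`. -/
abbrev Ts (S : ℕ) : Type := {a : T // a.size ≤ S}

theorem num_lt (S : ℕ) (a : Ts S) : a.1.num < 2 ^ (S + 1) := by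
  have h1 : a.1.num < 2 ^ a.1.num.size := Nat.lt_size_self _
  rw [H19.T.num_size] at h1
  exact lt_of_lt_of_le h1 (Nat.pow_le_pow_right (by norm_num) (by have := a.2; omega))

/-- The trees as numbers. -/
def toFin (S : ℕ) (a : Ts S) : Fin (2 ^ (S + 1)) := ⟨a.1.num, num_lt S a⟩

theorem toFin_inj (S : ℕ) : Function.Injective (toFin S) := by
  intro a b h
  have h1 : a.1.num = b.1.num := congrArg Fin.val h
  exact Subtype.ext (RH.LOCAL.num_inj h1)

instance (S : ℕ) : Finite (Ts S) := Finite.of_injective _ (toFin_inj S)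

/-- The number of trees of size at most `S`. -/
noncomputable def cnt (S : ℕ) : ℕ := Nat.card (Ts S)

theorem cnt_le (S : ℕ) : cnt S ≤ 2 ^ (S + 1) := by
  have := Nat.card_le_card_of_injective _ (toFin_inj S)
  rwa [Nat.card_fin] at this

/-- An enumeration. -/
noncomputable def enm (S : ℕ) : Fin (cnt S) ≃ Ts S := (Finite.equivFin (Ts S)).symm

theorem le_cnt (S m : ℕ) (h : 4 * m + 1 ≤ S) : 2 ^ m ≤ cnt S := by
  have hs : ∀ i : Fin (2 ^ m), (bl i).size ≤ S := by
    intro i
    have h1 := H19.bl_size i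
    have h2 : (i : ℕ).size ≤ m := Nat.size_le.2 i.2
    omega
  have := Nat.card_le_card_of_injective (fun i : Fin (2 ^ m) => (⟨bl i, hs i⟩ : Ts S)) (by
    intro i j hij
    have h1 : bl (i : ℕ) = bl (j : ℕ) := congrArg Subtype.val hij
    have h2 := congrArg bn h1
    rw [H19.bn_bl, H19.bn_bl] at h2
    exact Fin.ext h2)
  rwa [Nat.card_fin] at this

/-! ### Sizes -/

theorem big_exists (E s : ℕ) : ∃ m : ℕ, s ≤ m ∧ (4 * m + 13) ^ E ≤ 2 ^ m := by
  obtain ⟨t, ht⟩ : ∃ t, t = E + s + 10 := ⟨_, rfl⟩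
  have h1 : t < 2 ^ t := Nat.lt_two_pow_self
  have h2 : 2 * t ≤ 2 ^ t := by
    have h3 : t - 1 < 2 ^ (t - 1) := Nat.lt_two_pow_self
    have h4 : 2 ^ t = 2 * 2 ^ (t - 1) := by
      rw [← pow_succ']
      congr 1
      omega
    omega
  refine ⟨2 ^ (2 * t), ?_, ?_⟩
  · have : 2 ^ t ≤ 2 ^ (2 * t) := Nat.pow_le_pow_right (by norm_num) (by omega)
    omega
  · have h3 : 4 * 2 ^ (2 * t) + 13 ≤ 2 ^ (2 * t + 5) := by
      have : 1 ≤ 2 ^ (2 * t) := Nat.one_le_two_pow
      rw [pow_add]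
      omega
    calc (4 * 2 ^ (2 * t) + 13) ^ E ≤ (2 ^ (2 * t + 5)) ^ E := Nat.pow_le_pow_left h3 _
      _ = 2 ^ ((2 * t + 5) * E) := by rw [← pow_mul]
      _ ≤ 2 ^ (2 ^ (2 * t)) := by
        apply Nat.pow_le_pow_right (by norm_num)
        have h5 : 2 ^ (2 * t) = 2 ^ t * 2 ^ t := by rw [← pow_add]; congr 1; omega
        rw [h5]
        calc (2 * t + 5) * E ≤ (4 * t) * t := Nat.mul_le_mul (by omega) (by omega)
          _ = (2 * t) * (2 * t) := by ring
          _ ≤ _ := Nat.mul_le_mul h2 h2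

/-- The bound for the cost of the program. -/
def ww (S k κ : ℕ) : ℕ := (S + 2 * (S + 2) ^ k + 4) ^ κ

theorem sizes (k κ s : ℕ) : ∃ S M : ℕ, S = 2 * M + 1 ∧ s ≤ S ∧ 4 * ww S k κ ≤ cnt S ∧
    8 * ww S k κ ≤ cnt S ∧ 8 * cnt ((S + 2) ^ k) < 2 ^ (cnt S / (32 * ww S k κ)) := by
  obtain ⟨m, hm1, hm2⟩ := big_exists (2 + (k + 2) * κ + (k + 1)) s
  have hX : 4 * m + 13 = (4 * m + 11) + 2 := by ring
  refine ⟨4 * m + 11, 2 * m + 5, by ring, by omega, ?_⟩
  rw [hX] at hm2
  set S := 4 * m + 11 with hS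
  have hc : 2 ^ m ≤ cnt S := le_cnt S m (by omega)
  set X := S + 2 with hXdef
  have hX13 : 13 ≤ X := by omega
  have hXk : 1 ≤ X ^ k := Nat.one_le_pow _ _ (by omega)
  have hw : ww S k κ ≤ X ^ ((k + 2) * κ) := by
    unfold ww
    rw [pow_mul]
    apply Nat.pow_le_pow_left
    rw [← hXdef]
    have h1 : X ^ (k + 2) = X ^ k * (X * X) := by rw [pow_add, sq]
    rw [h1]
    have h2 : X ^ k * (13 * X) ≤ X ^ k * (X * X) := by gcongr
    have h3 : X ^ k * (13 * X) = 13 * (X ^ k * X) := by ring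
    have h4 : 1 * X ≤ X ^ k * X := by gcongr
    have h5 : X ^ k * 1 ≤ X ^ k * X := by gcongr; omega
    omega
  have hwpos : 1 ≤ ww S k κ := Nat.one_le_pow _ _ (by omega)
  have h6 : X ^ k + 6 ≤ X ^ (k + 1) := by
    rw [pow_succ]
    have : X ^ k * 13 ≤ X ^ k * X := by gcongr
    omega
  have key : 32 * ww S k κ * (X ^ k + 6) ≤ 2 ^ m := by
    refine le_trans ?_ hm2
    have h7 : X ^ (2 + (k + 2) * κ + (k + 1)) = X ^ 2 * X ^ ((k + 2) * κ) * X ^ (k + 1) := by
      rw [pow_add, pow_add]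
    rw [h7]
    have h8 : 32 ≤ X ^ 2 := by nlinarith
    exact Nat.mul_le_mul (Nat.mul_le_mul h8 hw) h6
  have key2 : 32 * ww S k κ * (X ^ k + 6) ≤ cnt S := key.trans hc
  have h9 : 32 * ww S k κ * 1 ≤ 32 * ww S k κ * (X ^ k + 6) := by gcongr; omega
  refine ⟨by omega, by omega, ?_⟩
  have h10 : X ^ k + 6 ≤ cnt S / (32 * ww S k κ) := by
    rw [Nat.le_div_iff_mul_le (by omega), mul_comm]
    exact key2
  have h11 := cnt_le (X ^ k)
  calc 8 * cnt (X ^ k) ≤ 8 * 2 ^ (X ^ k + 1) := by gcongr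
    _ < 2 ^ (X ^ k + 6) := by
        have h12 : 1 ≤ 2 ^ (X ^ k) := Nat.one_le_two_pow
        rw [pow_add, pow_add]
        omega
    _ ≤ 2 ^ (cnt S / (32 * ww S k κ)) := Nat.pow_le_pow_right (by norm_num) h10

/-! ### The oracles -/

section

variable (S : ℕ) (x : T)

/-- The blocks. -/
noncomputable def blk (j : Fin (cnt S * cnt S)) : T :=
  T.node (enm S (finProdFinEquiv.symm j).1).1 (enm S (finProdFinEquiv.symm j).2).1

theorem blk_inj : Function.Injective (blk S) := by
  intro i j h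
  unfold blk at h
  simp only [T.node.injEq] at h
  have h1 := (enm S).injective (Subtype.ext h.1)
  have h2 := (enm S).injective (Subtype.ext h.2)
  exact finProdFinEquiv.symm.injective (Prod.ext h1 h2)

theorem blk_size (j : Fin (cnt S * cnt S)) : (blk S j).size ≤ 2 * S + 1 := by
  unfold blk
  have h1 := (enm S (finProdFinEquiv.symm j).1).2
  have h2 := (enm S (finProdFinEquiv.symm j).2).2
  simp only [T.size]
  omega

/-- The positions of the bits. -/
noncomputable def pos (i : Fin (cnt S)) (j : Fin (cnt S * cnt S)) : ℕ :=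
  (T.node x (T.node (enm S i).1 (blk S j))).num

theorem pos_inj {i i' : Fin (cnt S)} {j j' : Fin (cnt S * cnt S)}
    (h : pos S x i j = pos S x i' j') : i = i' ∧ j = j' := by
  have h1 := RH.LOCAL.num_inj h
  simp only [T.node.injEq, true_and] at h1
  exact ⟨(enm S).injective (Subtype.ext h1.1), blk_inj S h1.2⟩

variable {w : ℕ} (s0 : Fin (8 * w)) (G : Om)

open Classical in
/-- The oracle of a configuration. -/
noncomputable def GG (h : Cfg (cnt S) (cnt S * cnt S) (Fin (8 * w))) : Om := fun n =>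
  if ∃ a b : T, n = (T.node x (T.node a b)).num then
    decide (∃ i j, n = pos S x i j ∧ h i j = s0) else G n

theorem GG_cond {s : T} (hs : Cond s G) (hx : s.size ≤ x.size)
    (h : Cfg (cnt S) (cnt S * cnt S) (Fin (8 * w))) : Cond s (GG S x s0 G h) := by
  intro a ha
  have h1 : GG S x s0 G h (bn a.right) = G (bn a.right) := by
    unfold GG
    rw [if_neg]
    rintro ⟨u, v, huv⟩
    have h2 : (bn a.right).size = (T.node x (T.node u v)).size + 1 := by
      rw [huv, H19.T.num_size]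
    have h3 := H19.bn_size_le a.right
    have h4 := H19.T.len_lt_size a.right
    have h5 := H19.T.size_right_le a
    have h6 : a.size ≤ s.size := RO.LOCAL.toL_size _ _ ha
    simp only [T.size] at h2
    omega
  rw [h1]
  exact hs a ha

theorem GG_agree {Q : Finset ℕ} {A : Om} {h h' : Cfg (cnt S) (cnt S * cnt S) (Fin (8 * w))}
    (hh : ∀ i j, 2 * pos S x i j + 1 ∈ Q → h' i j = h i j) :
    ∀ n ∈ Q, join A (GG S x s0 G h') n = join A (GG S x s0 G h) n := by
  intro n hn
  unfold join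
  split_ifs with h1
  · rfl
  · unfold GG
    split_ifs with h2
    · congr 1
      apply propext
      constructor
      · rintro ⟨i, j, e1, e2⟩
        refine ⟨i, j, e1, ?_⟩
        rw [← hh i j (by rw [← e1]; have : 2 * (n / 2) + 1 = n := by omega
                         rwa [this])]
        exact e2
      · rintro ⟨i, j, e1, e2⟩
        refine ⟨i, j, e1, ?_⟩
        rw [hh i j (by rw [← e1]; have : 2 * (n / 2) + 1 = n := by omega
                       rwa [this])]
        exact e2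
    · rfl

theorem LL_iff (hx : x.size = S) (h : Cfg (cnt S) (cnt S * cnt S) (Fin (8 * w))) :
    x ∈ LL (GG S x s0 G h) ↔ ∀ i, h ∉ dead s0 i := by
  have hval : ∀ i j, GG S x s0 G h (pos S x i j) = true ↔ h i j = s0 := by
    intro i j
    unfold GG
    rw [if_pos ⟨_, _, rfl⟩, decide_eq_true_iff]
    constructor
    · rintro ⟨i', j', e1, e2⟩
      obtain ⟨rfl, rfl⟩ := pos_inj S x e1
      exact e2
    · intro e
      exact ⟨i, j, rfl, e⟩
  constructor
  · intro hL i hd
    obtain ⟨b, hb, hG⟩ := hL (enm S i).1 (by rw [hx]; exact (enm S i).2)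
    unfold GG at hG
    rw [if_pos ⟨_, _, rfl⟩, decide_eq_true_iff] at hG
    obtain ⟨i', j', e1, e2⟩ := hG
    have h1 := RH.LOCAL.num_inj e1
    simp only [T.node.injEq, true_and] at h1
    have h2 := (enm S).injective (Subtype.ext h1.1)
    subst h2
    exact hd j' e2
  · intro hL a ha
    obtain ⟨i, hi⟩ := (enm S).surjective ⟨a, by rw [← hx]; exact ha⟩
    have h1 := hL i
    have h2 : ∃ j, h i j = s0 := by
      by_contra hcon
      push Not at hcon
      exact h1 hcon
    obtain ⟨j, hj⟩ := h2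
    refine ⟨blk S j, ?_, ?_⟩
    · rw [hx]; exact blk_size S j
    · have h3 := (hval i j).2 hj
      unfold pos at h3
      rw [hi] at h3
      exact h3

end

end DIAG

open DIAG in
theorem DIAG_thm (hcount : Stmt_COUNT) : Stmt_DIAG := by
  classical
  intro A c κ k s G hG
  by_contra hcon
  push Not at hcon
  obtain ⟨S, M, hSM, hsS, h4w, h8w, hn⟩ := sizes k κ s.size
  set x : T := T.unary M with hxdef
  have hx : x.size = S := by rw [hxdef, H19.T.size_unary, hSM]
  set w := ww S k κ with hwdef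
  have hw1 : 1 ≤ w := Nat.one_le_pow _ _ (by omega)
  let s0 : Fin (8 * w) := ⟨0, by omega⟩
  set B := (S + 2) ^ k with hB
  have hdef : ∀ h : Cfg (cnt S) (cnt S * cnt S) (Fin (8 * w)),
      Defines A c κ k (GG S x s0 G h) := fun h =>
    hcon _ (GG_cond S x s0 G hG (by omega) h)
  let Q : ℕ → Set (Cfg (cnt S) (cnt S * cnt S) (Fin (8 * w))) := fun i =>
    {h | ∀ hi : i < cnt B, ∀ v : T, v.size ≤ B →
      Accepts (join A (GG S x s0 G h)) c κ (T.node x (T.node (enm B ⟨i, hi⟩).1 v))}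
  obtain ⟨h, hh⟩ := hcount (cnt S) (cnt S * cnt S) w (cnt B) hw1 h4w
    (Nat.mul_le_mul_right _ h8w) hn Q s0 (by
    intro i hi h hhQ
    have hhQ' : ∃ v : T, v.size ≤ B ∧
        ¬ Accepts (join A (GG S x s0 G h)) c κ (T.node x (T.node (enm B ⟨i, hi⟩).1 v)) := by
      by_contra hc2
      push Not at hc2
      exact hhQ fun _ => hc2
    obtain ⟨v, hv, hnacc⟩ := hhQ'
    obtain ⟨y, t, hev, ht⟩ := (hdef h).1 (T.node x (T.node (enm B ⟨i, hi⟩).1 v))
    have hy : y = T.leaf := by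
      by_contra hy
      exact hnacc ⟨y, t, hev, ht, hy⟩
    obtain ⟨q, hq1, -, hq3⟩ := hev.loc
    have hu := (enm B ⟨i, hi⟩).2
    have htw : t ≤ w := by
      refine ht.trans (Nat.pow_le_pow_left ?_ _)
      simp only [T.size]
      omega
    refine ⟨Finset.univ.filter fun p => 2 * pos S x p.1 p.2 + 1 ∈ q, ?_, ?_⟩
    · refine le_trans ?_ (hq1.trans htw)
      refine Finset.card_le_card_of_injOn (fun p => 2 * pos S x p.1 p.2 + 1) ?_ ?_
      · intro p hp
        exact (Finset.mem_filter.1 hp).2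
      · intro p _ p' _ hpp
        have h1 : pos S x p.1 p.2 = pos S x p'.1 p'.2 := by
          have h2 : 2 * pos S x p.1 p.2 + 1 = 2 * pos S x p'.1 p'.2 + 1 := hpp
          omega
        obtain ⟨e1, e2⟩ := pos_inj S x h1
        exact Prod.ext e1 e2
    · intro h' hh' hQ'
      have hagree := GG_agree S x s0 G (Q := q) (A := A) (h := h) (h' := h') (by
        intro i' j' hm
        exact hh' (i', j') (Finset.mem_filter.2 ⟨Finset.mem_univ _, hm⟩))
      have hev' := hq3 _ hagree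
      obtain ⟨y', t', hev2, -, hy'⟩ := hQ' hi v hv
      exact hy' ((hev'.det hev2).1.symm.trans hy))
  apply hh
  rw [← LL_iff S x s0 G hx h, (hdef h).2 x, hx, ← hB]
  constructor
  · rintro ⟨i, hi, hQ⟩
    exact ⟨(enm B ⟨i, hi⟩).1, (enm B ⟨i, hi⟩).2, hQ hi⟩
  · rintro ⟨u, hu, hacc⟩
    obtain ⟨i, hi⟩ := (enm B).surjective ⟨u, hu⟩
    refine ⟨i, i.2, fun hi' v hv => ?_⟩
    have : (enm B ⟨i, hi'⟩).1 = u := by
      have e : (⟨(i : ℕ), hi'⟩ : Fin (cnt B)) = i := rfl
      rw [e, hi]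
    rw [this]
    exact hacc v hv

end Pool.Agent.RD
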