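import Pool.Agent.RD.Cst

/-!
# FAILS: the conjecture fails for comeager many oracles
-/

open Filter Topology

namespace Pool.Agent.RD

open Pool.Agent.H19 (T PolyTime PolyDec PolyNat PolyN Tm scons bn bl ofBool encL vec3)
open Pool.Agent.RO
open Pool.Agent.RH (padF unpad Cfg LocF dead Stmt_FIN)

namespace FAILS

deriving instance Countable for H19.Tm

deriving instance Countable for Fm

theorem isOpen_of_finite {U : Set Om} (h : ∀ G ∈ U, ∃ N : ℕ, ∀ G' : Om, (∀ i < N, G' i = G i) →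
    G' ∈ U) : IsOpen U := by
  rw [isOpen_pi_iff]
  intro G hG
  obtain ⟨N, hN⟩ := h G hG
  refine ⟨Finset.range N, fun i => {G i}, fun i _ => ⟨isOpen_discrete _, rfl⟩, ?_⟩
  intro G' hG'
  refine hN G' fun i hi => ?_
  have := hG' i (Finset.mem_coe.2 (Finset.mem_range.2 hi))
  simpa using this

theorem fvBelow_mono (φ : Fm) : ∀ {k l : ℕ}, k ≤ l → φ.fvBelow k → φ.fvBelow l := by
  have tm : ∀ (t : Tm) {k l : ℕ}, k ≤ l → t.fvBelow k → t.fvBelow l := by
    intro t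
    induction t <;> intro k l hkl h <;> simp_all [H19.Tm.fvBelow] <;> grind
  induction φ with
  | bot => intro k l hkl h; trivial
  | eq s t => intro k l hkl h; exact ⟨tm s hkl h.1, tm t hkl h.2⟩
  | le s t => intro k l hkl h; exact ⟨tm s hkl h.1, tm t hkl h.2⟩
  | rel t => intro k l hkl h; exact tm t hkl h
  | imp φ ψ ih1 ih2 => intro k l hkl h; exact ⟨ih1 hkl h.1, ih2 hkl h.2⟩
  | all φ ih => intro k l hkl h; exact ih (Nat.succ_le_succ hkl) h

end FAILS

open FAILS in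
theorem FAILS_thm (h1 : Stmt_SCLASS) (h2 : Stmt_RFNLOC) (h3 : Stmt_GENERIC) (h4 : Stmt_CONSTR)
    (h5 : Stmt_RFNTRUE) : Stmt_FAILS := by
  intro A hA
  have key : ∀ Q μ : Fm, ∀ᶠ G in residual Om, (Q.bdd = true → μ.bdd = true → Q.fvBelow 4 →
      μ.fvBelow 4 → (∀ (n : ℕ) v, (rfn Q μ n).sat (stdN (join A G)) v) →
      ∃ s : T, Cond s G ∧ ∀ G' : Om, Cond s G' →
        ∀ (n : ℕ) v, (rfn Q μ n).sat (stdN (join A G')) v) := by
    intro Q μ
    by_cases hc : Q.bdd = true ∧ μ.bdd = true ∧ Q.fvBelow 4 ∧ μ.fvBelow 4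
    swap
    · exact Eventually.of_forall fun G a b c d => absurd ⟨a, b, c, d⟩ hc
    obtain ⟨a, b, c, d⟩ := hc
    obtain ⟨k, hk⟩ := h2 Q μ a b c d
    have hU : IsOpen {G : Om | ∃ (n : ℕ) (v : ℕ → ℕ), ¬ (rfn Q μ n).sat (stdN (join A G)) v} := by
      refine isOpen_of_finite ?_
      rintro G ⟨n, v, hv⟩
      refine ⟨2 ^ ((n + 2) ^ k), fun G' hG' => ⟨n, v, ?_⟩⟩
      intro hs
      refine hv ((hk n (join A G) (join A G') ?_ v v).2 hs)
      intro i hi
      unfold RO.join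
      by_cases he : i % 2 = 0
      · simp [he]
      · simp only [he, if_false]
        refine hG' _ ?_
        have h6 : i < 2 ^ ((n + 2) ^ k) := Nat.size_le.1 hi
        omega
    filter_upwards [h3 _ hU] with G hG _ _ _ _ ht
    rcases hG with ⟨n, v, hv⟩ | ⟨s, hs, hs'⟩
    · exact absurd (ht n v) hv
    · refine ⟨s, hs, fun G' hG' n v => ?_⟩
      by_contra hcon
      exact hs' G' hG' ⟨n, v, hcon⟩
  have key2 : ∀ᶠ G in residual Om, ∀ Q μ : Fm, (Q.bdd = true → μ.bdd = true → Q.fvBelow 4 →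
      μ.fvBelow 4 → (∀ (n : ℕ) v, (rfn Q μ n).sat (stdN (join A G)) v) →
      ∃ s : T, Cond s G ∧ ∀ G' : Om, Cond s G' →
        ∀ (n : ℕ) v, (rfn Q μ n).sat (stdN (join A G')) v) :=
    eventually_countable_forall.2 fun Q => eventually_countable_forall.2 fun μ => key Q μ
  filter_upwards [key2] with G hG μ P hμ hP hR
  obtain ⟨c, κ, hH, hC, hn⟩ := hR (SS (join A G)) (h1 A hA G)
  apply hn
  have ht := h5 μ hμ P hP (join A G) c κ hC.1
  have b1 : (P c κ).bdd = true := (Fm.bdd_of (P c κ)).1 (hP.delta c κ).1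
  have b2 : μ.bdd = true := (Fm.bdd_of μ).1 hμ.1
  have b3 : μ.fvBelow 4 := fvBelow_mono μ (by omega) hμ.2.1
  obtain ⟨s, hs, hs'⟩ := hG (P c κ) μ b1 b2 (hP.below c κ) b3 ht
  obtain ⟨f, hf, hfn⟩ := h4 A hA G (P c κ) μ b1 b2 (hP.below c κ) b3 s hs hs'
  exact ⟨f, (PolyOn.of_poly (H := Set.univ) hf).polyTimeO (O := join A G) (Set.mem_univ _), hfn⟩

end Pool.Agent.RD
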