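import Pool.Agent.RD.Cst

/-!
# GENERIC: a generic oracle is in a given open set or satisfies a condition which forbids it
-/

open Filter Topology

namespace Pool.Agent.RD

open Pool.Agent.H19 (T PolyTime PolyDec PolyNat PolyN Tm scons bn bl ofBool encL vec3)
open Pool.Agent.RO

/-- Every point of an open set satisfies a finite condition which implies membership. -/
theorem exists_cond_of_isOpen {V : Set Om} (hV : IsOpen V) {G : Om} (hG : G ∈ V) :
    ∃ s : T, Cond s G ∧ ∀ G' : Om, Cond s G' → G' ∈ V := by
  obtain ⟨I, u, hu, hsub⟩ := isOpen_pi_iff.mp hV G hG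
  have key : ∀ n : ℕ, (ofBool (G n) ≠ T.leaf ↔ G n = true) := by
    intro n
    cases h : G n <;> simp [ofBool]
  refine ⟨encL (I.toList.map fun n => T.node (ofBool (G n)) (bl n)), ?_, ?_⟩
  · intro a ha
    rw [H19.toL_encL, List.mem_map] at ha
    obtain ⟨n, _, rfl⟩ := ha
    show (G (bn (bl n)) = true ↔ ofBool (G n) ≠ T.leaf)
    rw [H19.bn_bl, key]
  · intro G' hG'
    apply hsub
    intro n hn
    have h1 := hG' (T.node (ofBool (G n)) (bl n)) (by
      rw [H19.toL_encL]
      exact List.mem_map.mpr ⟨n, by simpa using hn, rfl⟩)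
    have h2 : (G' (bn (bl n)) = true ↔ ofBool (G n) ≠ T.leaf) := h1
    rw [H19.bn_bl, key] at h2
    have h3 : G' n = G n := Bool.eq_iff_iff.mpr h2
    rw [h3]
    exact (hu n hn).2

/-- The set of all points satisfying a finite condition is open. -/
theorem isOpen_cond (s : T) : IsOpen {G : Om | Cond s G} := by
  have h1 : {G : Om | Cond s G} = ⋂ a ∈ {a | a ∈ s.toL},
      {G : Om | (G (bn a.right) = true ↔ a.left ≠ T.leaf)} := by
    ext G
    simp [Cond]
  rw [h1]
  refine Set.Finite.isOpen_biInter (List.finite_toSet _) fun a _ => ?_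
  have h2 : {G : Om | (G (bn a.right) = true ↔ a.left ≠ T.leaf)} =
      (fun G : Om => G (bn a.right)) ⁻¹' {b | (b = true ↔ a.left ≠ T.leaf)} := rfl
  rw [h2]
  exact (isOpen_discrete _).preimage (continuous_apply _)

theorem GENERIC_thm : Stmt_GENERIC := by
  intro U hU
  have hW : IsOpen (U ∪ interior Uᶜ) := hU.union isOpen_interior
  have hd : Dense (U ∪ interior Uᶜ) := by
    intro G
    by_cases hG : G ∈ closure U
    · exact closure_mono Set.subset_union_left hG
    · refine subset_closure (Or.inr ?_)
      rw [interior_compl]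
      exact hG
  filter_upwards [residual_of_dense_open hW hd] with G hG
  rcases hG with hG | hG
  · exact Or.inl hG
  · obtain ⟨s, hs, h⟩ := exists_cond_of_isOpen isOpen_interior hG
    exact Or.inr ⟨s, hs, fun G' hG' => interior_subset (h G' hG')⟩

end Pool.Agent.RD
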