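import Pool.Agent.RD.Cst

/-!
# The truth of a bounded formula depends only on bits at positions of polynomial length

Module LOCB: `Stmt_LOCB`.
-/

namespace Pool.Agent.RD

open Pool.Agent.H19 (Tm scons)
open Pool.Agent.RO

/-- The values of a term have polynomial length. -/
theorem term_size (t : Tm) : ∃ c : ℕ, ∀ (L : ℕ) (v : ℕ → ℕ), (∀ i, (v i).size ≤ L) →
    (t.val H19.stdN v).size ≤ (L + 2) ^ c := by
  have mono : ∀ (L a b : ℕ), a ≤ b → (L + 2) ^ a ≤ (L + 2) ^ b := fun L a b h =>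
    Nat.pow_le_pow_right (by omega) h
  have hsum : ∀ (L a b : ℕ), (L + 2) ^ a + (L + 2) ^ b + 1 ≤ (L + 2) ^ (a + b + 2) := by
    intro L a b
    have h1 : 1 ≤ (L + 2) ^ a := Nat.one_le_pow _ _ (by omega)
    have h2 : 1 ≤ (L + 2) ^ b := Nat.one_le_pow _ _ (by omega)
    have h3 : (L + 2) ^ (a + b + 2) = (L + 2) ^ a * (L + 2) ^ b * ((L + 2) * (L + 2)) := by
      ring
    rw [h3]
    have h4 : 4 ≤ (L + 2) * (L + 2) := by nlinarith
    have h5 := Nat.mul_le_mul_left ((L + 2) ^ a * (L + 2) ^ b) h4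
    nlinarith [Nat.mul_le_mul h1 h2]
  have hprod : ∀ (L a b : ℕ), (L + 2) ^ a * (L + 2) ^ b + 1 ≤ (L + 2) ^ (a + b + 2) := by
    intro L a b
    have h1 : 1 ≤ (L + 2) ^ a := Nat.one_le_pow _ _ (by omega)
    have h2 : 1 ≤ (L + 2) ^ b := Nat.one_le_pow _ _ (by omega)
    have h3 : (L + 2) ^ (a + b + 2) = (L + 2) ^ a * (L + 2) ^ b * ((L + 2) * (L + 2)) := by
      ring
    rw [h3]
    have h4 : 4 ≤ (L + 2) * (L + 2) := by nlinarith
    have h5 := Nat.mul_le_mul_left ((L + 2) ^ a * (L + 2) ^ b) h4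
    nlinarith [Nat.mul_le_mul h1 h2]
  induction t with
  | var i =>
    refine ⟨1, fun L v hv => ?_⟩
    have := hv i
    simp only [Tm.val, pow_one]; omega
  | zero => exact ⟨0, fun L v hv => by simp [Tm.val, H19.stdN]⟩
  | succ t ih =>
    obtain ⟨c, hc⟩ := ih
    refine ⟨c + 0 + 2, fun L v hv => ?_⟩
    refine (H19.size_add_le _ _).trans ?_
    have h := hc L v hv
    have h2 := hsum L c 0
    have h3 : (1 : ℕ).size = 1 := by decide
    rw [h3]
    have h4 : (L + 2) ^ 0 = 1 := pow_zero _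
    omega
  | half t ih =>
    obtain ⟨c, hc⟩ := ih
    refine ⟨c, fun L v hv => ?_⟩
    exact (Nat.size_le_size (Nat.div_le_self _ 2)).trans (hc L v hv)
  | len t ih =>
    obtain ⟨c, hc⟩ := ih
    refine ⟨c, fun L v hv => ?_⟩
    have h1 : (t.val H19.stdN v).size.size ≤ (t.val H19.stdN v).size := by
      rw [Nat.size_le]; exact Nat.lt_two_pow_self
    exact h1.trans (hc L v hv)
  | add s t ih1 ih2 =>
    obtain ⟨c, hc⟩ := ih1
    obtain ⟨d, hd⟩ := ih2
    refine ⟨c + d + 2, fun L v hv => ?_⟩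
    refine (H19.size_add_le _ _).trans ?_
    have h := hc L v hv
    have h' := hd L v hv
    have := hsum L c d
    omega
  | mul s t ih1 ih2 =>
    obtain ⟨c, hc⟩ := ih1
    obtain ⟨d, hd⟩ := ih2
    refine ⟨c + d + 2, fun L v hv => ?_⟩
    refine (H19.size_mul_le _ _).trans ?_
    have h := hc L v hv
    have h' := hd L v hv
    have := hsum L c d
    omega
  | smash s t ih1 ih2 =>
    obtain ⟨c, hc⟩ := ih1
    obtain ⟨d, hd⟩ := ih2
    refine ⟨c + d + 2, fun L v hv => ?_⟩
    have h := hc L v hv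
    have h' := hd L v hv
    have h1 : ((Tm.smash s t).val H19.stdN v).size =
        (s.val H19.stdN v).size * (t.val H19.stdN v).size + 1 := by
      show (2 ^ ((s.val H19.stdN v).size * (t.val H19.stdN v).size)).size = _
      exact Nat.size_pow
    rw [h1]
    exact (Nat.add_le_add_right (Nat.mul_le_mul h h') 1).trans (hprod L c d)

theorem LOCB_thm : Stmt_LOCB := by
  intro φ
  induction φ with
  | bot => exact fun _ => ⟨0, fun L v _ O O' _ => Iff.rfl⟩
  | eq s t => exact fun _ => ⟨0, fun L v _ O O' _ => by simp only [Fm.sat, stdN_toStr]⟩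
  | le s t => exact fun _ => ⟨0, fun L v _ O O' _ => by simp only [Fm.sat, stdN_toStr]⟩
  | rel t =>
    intro _
    obtain ⟨c, hc⟩ := term_size t
    refine ⟨c, fun L v hv O O' hO => ?_⟩
    have h := hO _ (hc L v hv)
    simp only [Fm.sat, stdN_toStr]
    show O _ = true ↔ O' _ = true
    rw [h]
  | imp φ ψ ih1 ih2 =>
    intro hb
    simp only [Fm.bdd, Bool.and_eq_true] at hb
    obtain ⟨k, hk⟩ := ih1 hb.1
    obtain ⟨l, hl⟩ := ih2 hb.2
    refine ⟨k + l, fun L v hv O O' hO => ?_⟩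
    have h1 := hk L v hv O O' fun n hn => hO n (hn.trans
      (Nat.pow_le_pow_right (by omega) (by omega)))
    have h2 := hl L v hv O O' fun n hn => hO n (hn.trans
      (Nat.pow_le_pow_right (by omega) (by omega)))
    simp only [Fm.sat, h1, h2]
  | all φ ih =>
    intro hb
    simp only [Fm.bdd, Bool.and_eq_true] at hb
    obtain ⟨hg, hb⟩ := hb
    obtain ⟨k, hk⟩ := ih hb
    obtain ⟨t, ψ, rfl, ht⟩ := Fm.guarded_elim hg
    obtain ⟨c, hc⟩ := term_size t
    refine ⟨(c + 2) * k, fun L v hv O O' hO => ?_⟩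
    have hm : ∀ a : ℕ, a ≤ t.val H19.stdN (scons a v) →
        ∀ i, (scons a v i).size ≤ (L + 2) ^ c + L := by
      intro a ha i
      cases i with
      | zero =>
        have h0 : t.val H19.stdN (scons a v) = t.val H19.stdN (scons 0 v) :=
          H19.Tm.val_guard ht a _
        rw [h0] at ha
        have h1 := hc L (scons 0 v) (fun i => by
          cases i with
          | zero => simp [scons]
          | succ i => exact hv i)
        have h2 : a.size ≤ (t.val H19.stdN (scons 0 v)).size := Nat.size_le_size ha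
        show a.size ≤ _
        omega
      | succ i => exact (hv i).trans (by omega)
    have hpow : ((L + 2) ^ c + L + 2) ^ k ≤ (L + 2) ^ ((c + 2) * k) := by
      rw [pow_mul]
      refine Nat.pow_le_pow_left ?_ _
      have h1 : 1 ≤ (L + 2) ^ c := Nat.one_le_pow _ _ (by omega)
      have h3 : (L + 2) ^ (c + 2) = (L + 2) ^ c * ((L + 2) * (L + 2)) := by ring
      rw [h3]
      nlinarith [Nat.mul_le_mul_left ((L + 2) ^ c) (show 4 + L ≤ (L + 2) * (L + 2) by nlinarith),
        Nat.mul_le_mul_right L h1]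
    have key : ∀ a : ℕ, a ≤ t.val H19.stdN (scons a v) →
        ((Fm.imp (Fm.le (Tm.var 0) t) ψ).sat (stdN O) (scons a v) ↔
          (Fm.imp (Fm.le (Tm.var 0) t) ψ).sat (stdN O') (scons a v)) := fun a ha =>
      hk ((L + 2) ^ c + L) (scons a v) (hm a ha) O O' fun n hn => hO n (hn.trans hpow)
    show (∀ a, (Fm.imp (Fm.le (Tm.var 0) t) ψ).sat (stdN O) (scons a v)) ↔
      (∀ a, (Fm.imp (Fm.le (Tm.var 0) t) ψ).sat (stdN O') (scons a v))
    constructor
    · intro h a ha
      have ha' : a ≤ t.val H19.stdN (scons a v) := ha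
      exact (key a ha').1 (h a) ha'
    · intro h a ha
      have ha' : a ≤ t.val H19.stdN (scons a v) := ha
      exact (key a ha').2 (h a) ha'

end Pool.Agent.RD
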