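import Pool.Agent.RD.Cst
import Mathlib

/-!
# MAIN: the main theorem from BASE, FAILS, PITWO and PHTWO
-/

open Filter Topology

namespace Pool.Agent.RD

open Pool.Agent.H19 (T PolyTime PolyDec PolyNat PolyN Tm scons bn bl ofBool encL vec3)
open Pool.Agent.RO

theorem MAIN_thm (h1 : Stmt_BASE) (h2 : Stmt_FAILS) (h3 : Stmt_PITWO) (h4 : Stmt_PHTWO) :
    Stmt_MAIN := by
  obtain ⟨A, hA⟩ := h1
  refine ⟨A, ?_⟩
  filter_upwards [h2 A hA, h4 A] with G hF hP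
  exact ⟨⟨LL G, h3 A G, hP⟩, hF⟩

end Pool.Agent.RD
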