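import Pool.Agent.RD.Cst

/-!
# Not being defined is an open property
-/

namespace Pool.Agent.RD

open Filter Topology
open Pool.Agent.H19 (T PolyTime PolyDec PolyNat PolyN Tm scons bn bl ofBool encL vec3)
open Pool.Agent.RO

namespace OPEN

theorem join_agree {A G G' : Om} {B : ℕ} (h : ∀ n < B, G' n = G n) :
    ∀ n < B, join A G' n = join A G n := by
  intro n hn
  unfold RO.join
  split
  · rfl
  · exact h _ (lt_of_le_of_lt (Nat.div_le_self n 2) hn)

theorem eval_dep {O O' : Om} {c : OCode} {x y : T} {t N : ℕ} (h : EvalO O c x y t) (ht : t ≤ N)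
    (ha : ∀ n < 2 ^ N, O' n = O n) : EvalO O' c x y t := by
  obtain ⟨Q, _, h2, h3⟩ := h.loc
  refine h3 O' fun n hn => ha n ?_
  exact Nat.size_le.mp ((h2 n hn).trans ht)

/-- the cylinder of an oracle is open -/
theorem isOpen_cyl (B : ℕ) (G : Om) : IsOpen {G' : Om | ∀ n < B, G' n = G n} := by
  have h1 : {G' : Om | ∀ n < B, G' n = G n} = ⋂ n ∈ Finset.range B, {G' : Om | G' n = G n} := by
    ext G'
    simp
  rw [h1]
  refine isOpen_biInter_finset fun n _ => ?_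
  have h2 : Continuous fun G' : Om => G' n := continuous_apply n
  exact (isOpen_discrete ({G n} : Set Bool)).preimage h2

theorem isOpen_of_dep {P : Om → Prop} (h : ∃ B : ℕ, ∀ G G' : Om, (∀ n < B, G' n = G n) →
    P G → P G') : IsOpen {G | P G} := by
  obtain ⟨B, hB⟩ := h
  rw [isOpen_iff_forall_mem_open]
  intro G hG
  exact ⟨{G' | ∀ n < B, G' n = G n}, fun G' hG' => hB G G' hG' hG, isOpen_cyl B G,
    fun n _ => rfl⟩

theorem isOpen_of_dep_not {P : Om → Prop} (h : ∃ B : ℕ, ∀ G G' : Om, (∀ n < B, G' n = G n) →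
    P G → P G') : IsOpen {G | ¬ P G} := by
  obtain ⟨B, hB⟩ := h
  refine isOpen_of_dep ⟨B, fun G G' hG hn hp => hn (hB G' G (fun n hn => (hG n hn).symm) hp)⟩

theorem halts_dep (A : Om) (c : OCode) (κ : ℕ) (x : T) : ∃ B : ℕ, ∀ G G' : Om,
    (∀ n < B, G' n = G n) → (∃ (y : T) (t : ℕ), EvalO (join A G) c x y t ∧ t ≤ (x.size + 2) ^ κ) →
      ∃ (y : T) (t : ℕ), EvalO (join A G') c x y t ∧ t ≤ (x.size + 2) ^ κ := by
  refine ⟨2 ^ ((x.size + 2) ^ κ), ?_⟩
  rintro G G' h ⟨y, t, h1, h2⟩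
  exact ⟨y, t, eval_dep h1 h2 (join_agree h), h2⟩

theorem accepts_dep {A G G' : Om} {c : OCode} {κ N : ℕ} {x : T} (hN : (x.size + 2) ^ κ ≤ N)
    (h : ∀ n < 2 ^ N, G' n = G n) (ha : Accepts (join A G) c κ x) :
    Accepts (join A G') c κ x := by
  obtain ⟨y, t, h1, h2, h3⟩ := ha
  exact ⟨y, t, eval_dep h1 (h2.trans hN) (join_agree h), h2, h3⟩

theorem LL_dep {G G' : Om} {x : T} {N : ℕ} (hN : 4 * x.size + 10 ≤ N)
    (h : ∀ n < 2 ^ N, G' n = G n) (hx : x ∈ LL G) : x ∈ LL G' := by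
  intro a ha
  obtain ⟨b, hb, h1⟩ := hx a ha
  refine ⟨b, hb, ?_⟩
  rw [h _ ?_]
  · exact h1
  · refine Nat.size_le.mp ?_
    rw [T.num_size]
    simp only [T.size]
    omega

/-- the value at one argument -/
def Val (A : Om) (c : OCode) (κ k : ℕ) (x : T) (G : Om) : Prop :=
  x ∈ LL G ↔ ∃ u : T, u.size ≤ (x.size + 2) ^ k ∧
    ∀ w : T, w.size ≤ (x.size + 2) ^ k → Accepts (join A G) c κ (T.node x (T.node u w))

theorem val_dep (A : Om) (c : OCode) (κ k : ℕ) (x : T) : ∃ B : ℕ, ∀ G G' : Om,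
    (∀ n < B, G' n = G n) → Val A c κ k x G → Val A c κ k x G' := by
  have hN1 : ∀ u w : T, u.size ≤ (x.size + 2) ^ k → w.size ≤ (x.size + 2) ^ k →
      ((T.node x (T.node u w)).size + 2) ^ κ ≤
        (x.size + 2 * (x.size + 2) ^ k + 4) ^ κ + (4 * x.size + 10) := by
    intro u w hu hw
    refine le_trans (Nat.pow_le_pow_left ?_ κ) (Nat.le_add_right _ _)
    simp only [T.size]
    omega
  have key : ∀ G G' : Om, (∀ n < 2 ^ ((x.size + 2 * (x.size + 2) ^ k + 4) ^ κ +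
      (4 * x.size + 10)), G' n = G n) →
      ((∃ u : T, u.size ≤ (x.size + 2) ^ k ∧
        ∀ w : T, w.size ≤ (x.size + 2) ^ k → Accepts (join A G) c κ (T.node x (T.node u w))) →
       ∃ u : T, u.size ≤ (x.size + 2) ^ k ∧
        ∀ w : T, w.size ≤ (x.size + 2) ^ k →
          Accepts (join A G') c κ (T.node x (T.node u w))) := by
    rintro G G' h ⟨u, hu, h1⟩
    exact ⟨u, hu, fun w hw => accepts_dep (hN1 u w hu hw) h (h1 w hw)⟩
  refine ⟨2 ^ ((x.size + 2 * (x.size + 2) ^ k + 4) ^ κ + (4 * x.size + 10)), ?_⟩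
  intro G G' h hv
  have h' : ∀ n < 2 ^ ((x.size + 2 * (x.size + 2) ^ k + 4) ^ κ + (4 * x.size + 10)),
      G n = G' n := fun n hn => (h n hn).symm
  constructor
  · intro hx
    exact key G G' h (hv.mp (LL_dep (Nat.le_add_left _ _) h' hx))
  · intro hu
    exact LL_dep (Nat.le_add_left _ _) h (hv.mpr (key G' G h' hu))

end OPEN

open OPEN in
/-- OPEN: not being defined is an open property. -/
theorem OPEN_thm : Stmt_OPEN := by
  intro A c κ k
  have h1 : {G : Om | ¬ Defines A c κ k G} =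
      (⋃ x : T, {G : Om | ¬ ∃ (y : T) (t : ℕ),
        EvalO (join A G) c x y t ∧ t ≤ (x.size + 2) ^ κ}) ∪
      ⋃ x : T, {G : Om | ¬ Val A c κ k x G} := by
    ext G
    simp only [Set.mem_ofPred_eq, Set.mem_union, Set.mem_iUnion]
    unfold Defines HaltsWithin
    rw [not_and_or, not_forall, not_forall]
    rfl
  rw [h1]
  exact (isOpen_iUnion fun x => isOpen_of_dep_not (halts_dep A c κ x)).union
    (isOpen_iUnion fun x => isOpen_of_dep_not (val_dep A c κ k x))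

end Pool.Agent.RD
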