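import Pool.Agent.RD.Cst
import Pool.Agent.RO.HYPS

/-!
# PHTWO: the second level of the polynomial hierarchy does not collapse for comeager many oracles
-/

set_option autoImplicit false

open Filter Topology

namespace Pool.Agent.RD

open Pool.Agent.H19 (T)
open Pool.Agent.RO

/-- One program with its clock and exponent does not define the language, for comeager many
oracles. -/
theorem PHTWO.not_defines (h1 : Stmt_DIAG) (h2 : Stmt_OPEN) (h3 : Stmt_GENERIC) (A : Om)
    (c : OCode) (κ k : ℕ) : ∀ᶠ G in residual Om, ¬ Defines A c κ k G := by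
  filter_upwards [h3 {G | ¬ Defines A c κ k G} (h2 A c κ k)] with G hG
  rcases hG with hG | ⟨s, hs, hs'⟩
  · exact hG
  · obtain ⟨G', hG', hd⟩ := h1 A c κ k s G hs
    exact absurd hd (hs' G' hG')

theorem PHTWO_thm (h1 : Stmt_DIAG) (h2 : Stmt_OPEN) (h3 : Stmt_GENERIC) : Stmt_PHTWO := by
  intro A
  have : Countable OCode := CNT_thm
  have key : ∀ᶠ G in residual Om, ∀ (c : OCode) (κ k : ℕ), ¬ Defines A c κ k G := by
    rw [eventually_countable_forall]
    intro c
    rw [eventually_countable_forall]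
    intro κ
    rw [eventually_countable_forall]
    intro k
    exact PHTWO.not_defines h1 h2 h3 A c κ k
  filter_upwards [key] with G hG
  rintro ⟨D, k, ⟨f, ⟨c, κ, hc⟩, hf⟩, hD⟩
  apply hG c κ k
  have hA : ∀ y, y ∈ D ↔ Accepts (join A G) c κ y := by
    intro y
    obtain ⟨t, h, ht⟩ := hc y
    rw [accepts_iff h ht, hf]
  refine ⟨fun x => ?_, fun x => ?_⟩
  · obtain ⟨t, h, ht⟩ := hc x
    exact ⟨f x, t, h, ht⟩
  · rw [hD]
    simp only [hA]

end Pool.Agent.RD
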