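import Pool.Agent.RD.Cst
import Pool.Agent.PO.Gn

/-!
# PITWO: the language `LL G` is in `Π^p_2` relative to `join A G` (module RD_PITWO, by helper18)
-/

namespace Pool.Agent.RD

open Pool.Agent.H19 (T PolyTime PolyDec PolyNat PolyN)
open Pool.Agent.RO

namespace PITWO

theorem num_polyN : PolyN (fun x : T => x.num) :=
  Pool.Agent.PO.GN_thm (fun x => x) 1 (by norm_num) PolyTime.id

theorem query_polyN : PolyN (fun x : T => 2 * x.num + 1) :=
  ((PolyN.const 2).mul num_polyN).succ

theorem join_odd (A G : Om) (n : ℕ) : join A G (2 * n + 1) = G n := by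
  unfold join
  rw [if_neg (by omega)]
  congr 1
  omega

/-- the test -/
def Test (O : Om) (y : T) : Prop :=
  y.right.left.size ≤ y.left.size ∧
    (¬ y.right.right.size ≤ 2 * y.left.size + 1 ∨ ¬ O (2 * y.num + 1) = true)

theorem test_decOn : DecOn Set.univ Test := by
  have i := PolyTime.id
  have h1 : PolyDec (fun y : T => y.right.left.size ≤ y.left.size) :=
    PolyDec.le (PolyNat.size i.right.left) (PolyNat.size i.left)
  have h2 : PolyDec (fun y : T => y.right.right.size ≤ 2 * y.left.size + 1) :=
    PolyDec.le (PolyNat.size i.right.right)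
      (((PolyNat.const 2).mul (PolyNat.size i.left)).add (PolyNat.const 1))
  exact (DecOn.of_dec h1).and ((DecOn.of_dec h2.not).or (DecOn.bit query_polyN).not)

end PITWO

open PITWO in
theorem PITWO_thm : Stmt_PITWO := by
  intro A G
  obtain ⟨F, hF, hdec⟩ := test_decOn
  refine ⟨{y | Test (join A G) y}, 2,
    ⟨F (join A G), hF.polyTimeO (Set.mem_univ _), fun y => hdec _ (Set.mem_univ _) y⟩, ?_⟩
  intro x
  have hb : 2 * x.size + 1 ≤ (x.size + 2) ^ 2 := by nlinarith
  constructor
  · intro hx
    have hx' : ¬ ∀ a : T, a.size ≤ x.size → ∃ b : T, b.size ≤ 2 * x.size + 1 ∧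
        G (T.node x (T.node a b)).num = true := hx
    push Not at hx'
    obtain ⟨a, ha, hab⟩ := hx'
    refine ⟨a, by nlinarith, fun w _ => ⟨?_, ?_⟩⟩
    · simpa using ha
    · by_cases hw : w.size ≤ 2 * x.size + 1
      · right
        rw [join_odd]
        exact hab w hw
      · left
        simpa using hw
  · rintro ⟨u, -, hu⟩ hx
    have h1 := (hu T.leaf (by simp [T.size]; nlinarith)).1
    have h2 : u.size ≤ x.size := by simpa using h1
    obtain ⟨b, hb1, hb2⟩ := hx u h2
    have h3 := (hu b (hb1.trans hb)).2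
    rcases h3 with h3 | h3
    · apply h3
      simpa using hb1
    · apply h3
      rw [join_odd]
      exact hb2

end Pool.Agent.RD
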