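import Pool.Agent.RD.Cst
import Mathlib

/-!
# Module RFNLOC: locality of the truth of the reflection sentences
-/

namespace Pool.Agent.RD

open Pool.Agent.H19 (T PolyTime PolyDec PolyNat PolyN Tm scons bn bl ofBool encL vec3)
open Pool.Agent.RO

namespace RFNLOC

theorem sat_rfn (P μ : Fm) (n : ℕ) (O : Om) (v : ℕ → ℕ) : (rfn P μ n).sat (stdN O) v ↔
    ∀ a b c d : ℕ, d.size ≤ n → c.size ≤ n → b.size ≤ n → a.size ≤ n →
      P.sat (stdN O) (scons d (scons c (scons b (scons a v)))) →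
        μ.sat (stdN O) (scons d (scons c (scons b (scons a v)))) := by
  simp only [rfn, Fm.sat, stdN_toStr, H19.Tm.numeral_val]
  rfl

theorem key {φ : Fm} (h4 : φ.fvBelow 4) {k K : ℕ} (hk : k ≤ K)
    (h : ∀ (L : ℕ) (v : ℕ → ℕ), (∀ i, (v i).size ≤ L) → ∀ O O' : Om,
      (∀ n : ℕ, n.size ≤ (L + 2) ^ k → O' n = O n) → (φ.sat (stdN O) v ↔ φ.sat (stdN O') v))
    {n : ℕ} {O O' : Om} (hO : ∀ i : ℕ, i.size ≤ (n + 2) ^ K → O' i = O i) {w w' : ℕ → ℕ}
    (hw : ∀ i < 4, w i = w' i) (hs : ∀ i < 4, (w i).size ≤ n) :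
    φ.sat (stdN O) w ↔ φ.sat (stdN O') w' := by
  set u : ℕ → ℕ := fun i => if i < 4 then w i else 0 with hu
  have h1 : φ.sat (stdN O) w ↔ φ.sat (stdN O) u :=
    Fm.sat_congr_below _ φ h4 fun i hi => by simp [hu, hi]
  have h2 : φ.sat (stdN O') w' ↔ φ.sat (stdN O') u :=
    Fm.sat_congr_below _ φ h4 fun i hi => by simp [hu, hi, hw i hi]
  rw [h1, h2]
  refine h n u (fun i => ?_) O O' fun m hm => hO m (hm.trans ?_)
  · by_cases hi : i < 4
    · simpa [hu, hi] using hs i hi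
    · simp [hu, hi]
  · exact Nat.pow_le_pow_right (by omega) hk

end RFNLOC

open RFNLOC in
theorem RFNLOC_thm (h : Stmt_LOCB) : Stmt_RFNLOC := by
  intro P μ hP hμ hP4 hμ4
  obtain ⟨k1, h1⟩ := h P hP
  obtain ⟨k2, h2⟩ := h μ hμ
  refine ⟨k1 + k2, fun n O O' hO v v' => ?_⟩
  rw [sat_rfn, sat_rfn]
  have hsz : ∀ {a b c d : ℕ} (v : ℕ → ℕ), d.size ≤ n → c.size ≤ n → b.size ≤ n → a.size ≤ n →
      ∀ i < 4, (scons d (scons c (scons b (scons a v))) i).size ≤ n := by
    intro a b c d v hd hc hb ha i hi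
    match i, hi with
    | 0, _ => exact hd
    | 1, _ => exact hc
    | 2, _ => exact hb
    | 3, _ => exact ha
  have heq : ∀ (a b c d : ℕ) (v v' : ℕ → ℕ), ∀ i < 4,
      scons d (scons c (scons b (scons a v))) i = scons d (scons c (scons b (scons a v'))) i := by
    intro a b c d v v' i hi
    match i, hi with
    | 0, _ => rfl
    | 1, _ => rfl
    | 2, _ => rfl
    | 3, _ => rfl
  refine forall_congr' fun a => forall_congr' fun b => forall_congr' fun c =>
    forall_congr' fun d => ?_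
  refine forall_congr' fun hd => forall_congr' fun hc => forall_congr' fun hb =>
    forall_congr' fun ha => ?_
  rw [key hP4 (Nat.le_add_right k1 k2) h1 hO (heq a b c d v v') (hsz v hd hc hb ha),
    key hμ4 (Nat.le_add_left k2 k1) h2 hO (heq a b c d v v') (hsz v hd hc hb ha)]

end Pool.Agent.RD
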