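import Pool.Agent.RD.Cst

/-!
# RFNTRUE: the reflection sentences of a consistent theory of the class are true
-/

namespace Pool.Agent.RD

open Pool.Agent.H19 (T PolyTime PolyDec PolyNat PolyN Tm scons bn bl ofBool encL vec3)
open Pool.Agent.RO

theorem RFNTRUE_thm : Stmt_RFNTRUE := by
  intro μ hμ P hP O c κ hc n v
  obtain ⟨M, A, hA⟩ := hc
  have g : Pool.Agent.H19.Good A.toStr := good_of_models fun φ hφ w => hA φ (Or.inl hφ) w
  have hd : A.Models (diag O) := fun φ hφ w => hA φ (Or.inr (Or.inl hφ)) w
  have hμb : μ.bdd = true := (Fm.bdd_of μ).1 hμ.1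
  intro u z x e _ _ _ _ hPt
  have hcongr : ∀ i, i < 4 → (scons e (scons x (scons z (scons u v)))) i =
      (scons e (scons x (scons z (scons u fun _ => 0)))) i := by
    intro i hi
    rcases i with _ | _ | _ | _ | i
    · rfl
    · rfl
    · rfl
    · rfl
    · omega
  rw [Fm.sat_congr_below (stdN O) (P c κ) (hP.below c κ) hcongr, hP.correct] at hPt
  obtain ⟨π, -, hπ⟩ := hPt
  have h1 := hπ.sound hA (fun i => A.nat ((scons u v) i))
  simp only [inst3, Fm.sat_inst, g.numeral] at h1
  have henv : scons (A.nat e) (scons (A.nat x) (scons (A.nat z) fun i => A.nat ((scons u v) i))) =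
      fun i => A.nat ((scons e (scons x (scons z (scons u v)))) i) := by
    funext i
    rcases i with _ | _ | _ | i <;> rfl
  rw [henv, sat_iff_of_models g hd μ hμb] at h1
  exact h1

end Pool.Agent.RD
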