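import Pool.Agent.RD.Cst

/-!
# SCLASS: the theory `S` belongs to the class
-/

namespace Pool.Agent.RD

open Pool.Agent.H19 (T PolyTime PolyDec PolyNat PolyN Tm scons bn bl ofBool encL vec3 tt)
open Pool.Agent.RO
open Pool.Agent.RH (padF unpad)

namespace SCLASS

/-! ### The numbers of trees are different -/

/-- The digits that describe a tree. -/
def bits : T → List Bool
  | T.leaf => [false]
  | T.node l r => true :: (bits l ++ bits r)

/-- Append a digit. -/
def stp (a : ℕ) (b : Bool) : ℕ := 2 * a + if b then 1 else 0

theorem gn_eq (x : T) : ∀ n, T.gn x n = (bits x).foldl stp n := by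
  induction x with
  | leaf => intro n; simp [T.gn, bits, stp]
  | node l r ihl ihr =>
    intro n
    simp only [T.gn, bits, List.foldl_cons, List.foldl_append, ihl, ihr, stp, if_true]

theorem bits_pref (x : T) : ∀ (y : T) (s s' : List Bool), bits x ++ s = bits y ++ s' →
    x = y ∧ s = s' := by
  induction x with
  | leaf =>
    intro y s s' h
    cases y with
    | leaf =>
      simp only [bits, List.cons_append, List.nil_append, List.cons.injEq, true_and] at h
      exact ⟨rfl, h⟩
    | node a b => simp [bits] at h
  | node l r ihl ihr =>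
    intro y s s' h
    cases y with
    | leaf => simp [bits] at h
    | node a b =>
      simp only [bits, List.cons_append, List.append_assoc, List.cons.injEq, true_and] at h
      obtain ⟨h1, h2⟩ := ihl a _ _ h
      obtain ⟨h3, h4⟩ := ihr b _ _ h2
      exact ⟨by rw [h1, h3], h4⟩

theorem one_le_fold (l : List Bool) : 1 ≤ l.foldl stp 1 := by
  induction l using List.reverseRecOn with
  | nil => simp
  | append_singleton l b ih =>
    rw [List.foldl_append]
    simp only [List.foldl_cons, List.foldl_nil, stp]
    omega

theorem fold_inj (l : List Bool) : ∀ l' : List Bool, l.foldl stp 1 = l'.foldl stp 1 →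
    l = l' := by
  induction l using List.reverseRecOn with
  | nil =>
    intro l' h
    rcases List.eq_nil_or_concat l' with rfl | ⟨a, b, rfl⟩
    · rfl
    · exfalso
      rw [List.concat_eq_append, List.foldl_append] at h
      simp only [List.foldl_cons, List.foldl_nil, stp] at h
      have := one_le_fold a
      omega
  | append_singleton l b ih =>
    intro l' h
    rcases List.eq_nil_or_concat l' with rfl | ⟨a, c, rfl⟩
    · exfalso
      rw [List.foldl_append] at h
      simp only [List.foldl_cons, List.foldl_nil, stp] at h
      have := one_le_fold l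
      omega
    · rw [List.concat_eq_append] at h ⊢
      rw [List.foldl_append, List.foldl_append] at h
      simp only [List.foldl_cons, List.foldl_nil, stp] at h
      have hbc : b = c := by
        cases b <;> cases c <;> first | rfl | (exfalso; simp at h; omega)
      subst hbc
      have h1 : l.foldl stp 1 = a.foldl stp 1 := by
        cases b <;> simp at h <;> omega
      rw [ih a h1]

theorem num_inj {x y : T} (h : x.num = y.num) : x = y := by
  rw [T.num, T.num, gn_eq, gn_eq] at h
  have h1 := fold_inj _ _ h
  have h2 : bits x ++ [] = bits y ++ [] := by rw [h1]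
  exact (bits_pref x y [] [] h2).1

/-! ### The additional axioms -/

theorem unfalsum_padF (v : T) (φ : Fm) : unfalsum (padF v φ).enc = v := by
  simp [unfalsum, padF, Fm.enc, H19.uu_tt]

theorem join_even (A G : Om) (n : ℕ) : join A G (2 * n) = A n := by
  simp [join]

theorem join_odd (A G : Om) (n : ℕ) : join A G (2 * n + 1) = G n := by
  have h1 : (2 * n + 1) % 2 = 1 := by omega
  have h2 : (2 * n + 1) / 2 = n := by omega
  simp [join, h1, h2]

/-- The additional axioms are true. -/
theorem sat_of_ans {A : Om} (hA : IsBase A) {G : Om} {z : T} (h : Ans (join A G) z)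
    (v : ℕ → ℕ) : (padF z (decFm z.left)).sat (stdN (join A G)) v := by
  obtain ⟨h1, h2⟩ := h
  rw [join_even] at h2
  obtain ⟨z', hz', hF⟩ := (hA z.num).1 h2
  obtain rfl : z' = z := num_inj hz'
  have hc : Cond z'.right.left G := by
    intro a ha
    have := h1 a ha
    rwa [join_odd] at this
  exact fun _ => hF A (fun _ _ => rfl) G hc v

end SCLASS

open SCLASS in
theorem SCLASS_thm (h : Stmt_ANSDEC) : Stmt_SCLASS := by
  intro A hA G
  refine ⟨⟨ℕ, stdN (join A G), ?_⟩, ?_⟩
  · rintro φ (hφ | hφ | ⟨z, rfl, hz⟩) v
    · exact stdN_models _ φ hφ v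
    · exact stdN_diag _ φ hφ v
    · exact sat_of_ans hA hz v
  · obtain ⟨F, hF, hd⟩ := h
    refine ⟨F (join A G), hF.polyTimeO (Set.mem_univ _), fun φ => ?_⟩
    rw [← hd (join A G) (Set.mem_univ _) φ.enc]
    constructor
    · rintro (hφ | hφ | ⟨z, hz, ha⟩)
      · exact Or.inl hφ
      · exact Or.inr (Or.inl hφ)
      · refine Or.inr (Or.inr ?_)
        have hu : unfalsum φ.enc = z := by rw [hz]; exact unfalsum_padF _ _
        show (padF (unfalsum φ.enc) (decFm (unfalsum φ.enc).left)).enc = φ.enc ∧
          Ans (join A G) (unfalsum φ.enc)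
        rw [hu]
        exact ⟨by rw [← hz], ha⟩
    · rintro (hφ | hφ | ⟨he, ha⟩)
      · exact Or.inl hφ
      · exact Or.inr (Or.inl hφ)
      · exact Or.inr (Or.inr ⟨unfalsum φ.enc, (Fm.enc_inj.1 he).symm, ha⟩)

end Pool.Agent.RD
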