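import Pool.Agent.RD.Cst
import Pool.Agent.RD.DIAG
import Pool.Agent.RD.OPEN
import Pool.Agent.RD.PITWO
import Pool.Agent.RD.GENERIC
import Pool.Agent.RO.HYPS

/-!
# No infinite set in P has all its `Π^p_2` subsets in `Σ^p_2`
-/

open Filter Topology

namespace Pool.Agent.RD

open Pool.Agent.H19 (T PolyTime PolyDec PolyNat PolyN Tm scons bn bl ofBool encL vec3)
open Pool.Agent.RO
open Pool.Agent.RH (padF unpad Cfg LocF dead Stmt_FIN)

namespace Sparse

open DIAG (Ts cnt enm blk blk_inj blk_size ww cnt_le le_cnt)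

/-! ### Sizes -/

theorem pow_le_two_pow (E : ℕ) : ∃ m₀ : ℕ, ∀ m ≥ m₀, (4 * m + 16) ^ E ≤ 2 ^ m := by
  have h1 := tendsto_pow_const_div_const_pow_of_one_lt E (r := 2) (by norm_num : (1 : ℝ) < 2)
  have h2 : ∀ᶠ n : ℕ in atTop, (n : ℝ) ^ E / 2 ^ n < 1 / 20 ^ E :=
    h1.eventually (gt_mem_nhds (by positivity))
  obtain ⟨m₀, hm₀⟩ := eventually_atTop.1 h2
  refine ⟨m₀ + 1, fun m hm => ?_⟩
  have h3 := hm₀ m (by omega)
  rw [div_lt_div_iff₀ (by positivity) (by positivity)] at h3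
  have h4 : (m : ℝ) ^ E * 20 ^ E ≤ 2 ^ m := by linarith
  have h5 : (20 * m) ^ E ≤ 2 ^ m := by
    have : ((20 * m : ℕ) : ℝ) ^ E ≤ 2 ^ m := by
      push_cast
      rw [mul_pow, mul_comm]
      exact h4
    exact_mod_cast this
  exact (Nat.pow_le_pow_left (by omega) E).trans h5

theorem sizes (k κ κD s : ℕ) : ∃ S₀ : ℕ, ∀ S ≥ S₀, ∀ N : ℕ,
    cnt S ≤ N + ((S + 2) ^ κD + s) → 4 * ww S k κ ≤ N ∧ 8 * ww S k κ ≤ cnt S ∧
    8 * cnt ((S + 2) ^ k) < 2 ^ (N / (32 * ww S k κ)) ∧ (S + 2) ^ κD + s < cnt S := by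
  obtain ⟨m₀, hm₀⟩ := pow_le_two_pow (2 + (k + 2) * κ + (k + 1) + κD + 2)
  refine ⟨4 * m₀ + s + 13, fun S hS N hN => ?_⟩
  obtain ⟨m, hm⟩ : ∃ m, m = (S - 1) / 4 := ⟨_, rfl⟩
  have hm1 : 4 * m + 1 ≤ S := by omega
  have hm2 := hm₀ m (by omega)
  have hc : 2 ^ m ≤ cnt S := le_cnt S m hm1
  obtain ⟨X, hXdef⟩ : ∃ X, X = S + 2 := ⟨_, rfl⟩
  have hX13 : 13 ≤ X := by omega
  have hXk : 1 ≤ X ^ k := Nat.one_le_pow _ _ (by omega)
  have hw : ww S k κ ≤ X ^ ((k + 2) * κ) := by
    unfold ww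
    rw [pow_mul]
    apply Nat.pow_le_pow_left
    rw [← hXdef]
    have h1 : X ^ (k + 2) = X ^ k * (X * X) := by rw [pow_add, sq]
    rw [h1]
    have h2 : X ^ k * (13 * X) ≤ X ^ k * (X * X) := by gcongr
    have h3 : X ^ k * (13 * X) = 13 * (X ^ k * X) := by ring
    have h4 : 1 * X ≤ X ^ k * X := by gcongr
    have h5 : X ^ k * 1 ≤ X ^ k * X := by gcongr; omega
    omega
  have hwpos : 1 ≤ ww S k κ := Nat.one_le_pow _ _ (by omega)
  have h6 : X ^ k + 6 ≤ X ^ (k + 1) := by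
    rw [pow_succ]
    have : X ^ k * 13 ≤ X ^ k * X := by gcongr
    omega
  obtain ⟨E, hE⟩ : ∃ E, E = 2 + (k + 2) * κ + (k + 1) := ⟨_, rfl⟩
  have key : 32 * ww S k κ * (X ^ k + 6) ≤ X ^ E := by
    have h7 : X ^ E = X ^ 2 * X ^ ((k + 2) * κ) * X ^ (k + 1) := by
      rw [hE, pow_add, pow_add]
    rw [h7]
    have h8 : 32 ≤ X ^ 2 := by nlinarith
    exact Nat.mul_le_mul (Nat.mul_le_mul h8 hw) h6
  have hsum : X ^ E + X ^ κD + s + 1 ≤ 2 ^ m := by
    have h1 : X ^ (E + κD + 2) ≤ 2 ^ m := by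
      rw [hE]
      exact (Nat.pow_le_pow_left (by omega) _).trans hm2
    have h2 : X ^ (E + κD + 2) = X ^ E * X ^ κD * X * X := by ring
    have h3 : 1 ≤ X ^ E := Nat.one_le_pow _ _ (by omega)
    have h4 : 1 ≤ X ^ κD := Nat.one_le_pow _ _ (by omega)
    have h5 : X ^ E ≤ X ^ E * X ^ κD := Nat.le_mul_of_pos_right _ h4
    have h6 : X ^ κD ≤ X ^ E * X ^ κD := Nat.le_mul_of_pos_left _ h3
    have h7 : s + 1 ≤ X := by omega
    have h8 : X ^ E * X ^ κD * X ≤ X ^ E * X ^ κD * X * X :=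
      Nat.le_mul_of_pos_right _ (by omega)
    have h9 : X ≤ X ^ E * X ^ κD * X := Nat.le_mul_of_pos_left _ (by positivity)
    have h10 : 13 * (X ^ E * X ^ κD) ≤ X ^ E * X ^ κD * X := by nlinarith
    have h11 : 13 * (X ^ E * X ^ κD * X) ≤ X ^ E * X ^ κD * X * X := by nlinarith
    omega
  have hN2 : X ^ E ≤ N := by
    rw [← hXdef] at hN
    omega
  have hN3 : 32 * ww S k κ * (X ^ k + 6) ≤ N := key.trans hN2
  have hc3 : 32 * ww S k κ * (X ^ k + 6) ≤ cnt S := by omega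
  have h9 : 32 * ww S k κ * 1 ≤ 32 * ww S k κ * (X ^ k + 6) := by gcongr; omega
  refine ⟨by omega, by omega, ?_, by rw [← hXdef]; omega⟩
  have h10 : X ^ k + 6 ≤ N / (32 * ww S k κ) := by
    rw [Nat.le_div_iff_mul_le (by omega), mul_comm]
    exact hN3
  have h11 := cnt_le (X ^ k)
  rw [← hXdef]
  calc 8 * cnt (X ^ k) ≤ 8 * 2 ^ (X ^ k + 1) := by gcongr
    _ < 2 ^ (X ^ k + 6) := by
        have h12 : 1 ≤ 2 ^ (X ^ k) := Nat.one_le_two_pow
        rw [pow_add, pow_add]
        omega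
    _ ≤ 2 ^ (N / (32 * ww S k κ)) := Nat.pow_le_pow_right (by norm_num) h10

/-! ### The oracles -/

section

variable (S : ℕ) (x : T) (Fz : Finset ℕ)

/-- The targets without frozen positions. -/
abbrev Tg : Type := {a : Ts S // ∀ b : T, (T.node x (T.node a.1 b)).num ∉ Fz}

/-- Their number. -/
noncomputable def nT : ℕ := Nat.card (Tg S x Fz)

/-- An enumeration. -/
noncomputable def eT : Fin (nT S x Fz) ≃ Tg S x Fz := (Finite.equivFin (Tg S x Fz)).symm

theorem node_inj {x a b a' b' : T} (h : (T.node x (T.node a b)).num =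
    (T.node x (T.node a' b')).num) : a = a' ∧ b = b' := by
  have h1 := RH.LOCAL.num_inj h
  simp only [T.node.injEq, true_and] at h1
  exact h1

theorem cnt_le_nT : cnt S ≤ nT S x Fz + Fz.card := by
  classical
  -- the other targets are mapped to frozen positions
  have h1 : ∀ a : {a : Ts S // ¬ ∀ b : T, (T.node x (T.node a.1 b)).num ∉ Fz},
      ∃ b : T, (T.node x (T.node a.1.1 b)).num ∈ Fz := by
    intro a
    have := a.2
    push Not at this
    exact this
  choose g hg using h1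
  have h2 : Nat.card {a : Ts S // ¬ ∀ b : T, (T.node x (T.node a.1 b)).num ∉ Fz} ≤ Fz.card := by
    have h3 := Nat.card_le_card_of_injective
      (fun a : {a : Ts S // ¬ ∀ b : T, (T.node x (T.node a.1 b)).num ∉ Fz} =>
        (⟨(T.node x (T.node a.1.1 (g a))).num, hg a⟩ : Fz)) (by
        intro a b hab
        have h4 := congrArg Subtype.val hab
        exact Subtype.ext (Subtype.ext (node_inj h4).1))
    rwa [Nat.card_eq_fintype_card (α := Fz), Fintype.card_coe] at h3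
  have h5 : cnt S = Nat.card (Tg S x Fz) +
      Nat.card {a : Ts S // ¬ ∀ b : T, (T.node x (T.node a.1 b)).num ∉ Fz} := by
    rw [cnt, ← Nat.card_sum]
    exact Nat.card_congr (Equiv.sumCompl _).symm
  rw [h5, nT]
  omega

/-- The positions of the bits. -/
noncomputable def pos (i : Fin (nT S x Fz)) (j : Fin (cnt S * cnt S)) : ℕ :=
  (T.node x (T.node (eT S x Fz i).1.1 (blk S j))).num

theorem pos_inj {i i' : Fin (nT S x Fz)} {j j' : Fin (cnt S * cnt S)}
    (h : pos S x Fz i j = pos S x Fz i' j') : i = i' ∧ j = j' := by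
  have h1 := node_inj h
  exact ⟨(eT S x Fz).injective (Subtype.ext (Subtype.ext h1.1)), blk_inj S h1.2⟩

theorem pos_not_mem (i : Fin (nT S x Fz)) (j : Fin (cnt S * cnt S)) : pos S x Fz i j ∉ Fz :=
  (eT S x Fz i).2 _

variable {w : ℕ} (s0 : Fin (8 * w)) (G : Om)

open Classical in
/-- The oracle of a configuration. -/
noncomputable def GG (h : Cfg (nT S x Fz) (cnt S * cnt S) (Fin (8 * w))) : Om := fun n =>
  if n ∈ Fz then G n else if ∃ a b : T, n = (T.node x (T.node a b)).num then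
    decide ((∃ i j, n = pos S x Fz i j ∧ h i j = s0) ∨
      ∃ a b : T, n = (T.node x (T.node a b)).num ∧
        ∃ b' : T, (T.node x (T.node a b')).num ∈ Fz) else G n

theorem GG_frozen (h : Cfg (nT S x Fz) (cnt S * cnt S) (Fin (8 * w))) {n : ℕ} (hn : n ∈ Fz) :
    GG S x Fz s0 G h n = G n := by
  unfold GG
  rw [if_pos hn]

theorem GG_agree {Q : Finset ℕ} {A : Om}
    {h h' : Cfg (nT S x Fz) (cnt S * cnt S) (Fin (8 * w))}
    (hh : ∀ i j, 2 * pos S x Fz i j + 1 ∈ Q → h' i j = h i j) :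
    ∀ n ∈ Q, join A (GG S x Fz s0 G h') n = join A (GG S x Fz s0 G h) n := by
  intro n hn
  unfold RO.join
  split_ifs with h1
  · rfl
  · unfold GG
    split_ifs with h3 h2
    · rfl
    · congr 1
      apply propext
      refine or_congr ?_ Iff.rfl
      constructor
      · rintro ⟨i, j, e1, e2⟩
        refine ⟨i, j, e1, ?_⟩
        rw [← hh i j (by rw [← e1]; have : 2 * (n / 2) + 1 = n := by omega
                         rwa [this])]
        exact e2
      · rintro ⟨i, j, e1, e2⟩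
        refine ⟨i, j, e1, ?_⟩
        rw [hh i j (by rw [← e1]; have : 2 * (n / 2) + 1 = n := by omega
                       rwa [this])]
        exact e2
    · rfl

theorem LL_iff (hx : x.size = S) (hF : Fz.card < cnt S)
    (h : Cfg (nT S x Fz) (cnt S * cnt S) (Fin (8 * w))) :
    x ∈ LL (GG S x Fz s0 G h) ↔ ∀ i, h ∉ dead s0 i := by
  classical
  constructor
  · intro hL i hd
    obtain ⟨b, hb, hG⟩ := hL (eT S x Fz i).1.1 (by rw [hx]; exact (eT S x Fz i).1.2)
    unfold GG at hG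
    rw [if_neg ((eT S x Fz i).2 b), if_pos ⟨_, _, rfl⟩, decide_eq_true_iff] at hG
    rcases hG with ⟨i', j', e1, e2⟩ | ⟨a', b', e1, b'', e2⟩
    · have h1 := node_inj e1
      have h2 := (eT S x Fz).injective (Subtype.ext (Subtype.ext h1.1))
      subst h2
      exact hd j' e2
    · obtain ⟨e3, e4⟩ := node_inj e1
      rw [← e3] at e2
      exact (eT S x Fz i).2 b'' e2
  · intro hL a ha
    rw [hx] at ha
    by_cases hfr : ∀ b : T, (T.node x (T.node a b)).num ∉ Fz
    · obtain ⟨i, hi⟩ := (eT S x Fz).surjective ⟨⟨a, ha⟩, hfr⟩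
      have h1 := hL i
      have h2 : ∃ j, h i j = s0 := by
        by_contra hcon
        push Not at hcon
        exact h1 hcon
      obtain ⟨j, hj⟩ := h2
      refine ⟨blk S j, by rw [hx]; exact blk_size S j, ?_⟩
      unfold GG
      rw [if_neg (hfr _), if_pos ⟨_, _, rfl⟩, decide_eq_true_iff]
      refine Or.inl ⟨i, j, ?_, hj⟩
      unfold pos
      rw [hi]
    · push Not at hfr
      obtain ⟨b₀, hb₀⟩ := hfr
      -- some short block of the target is not frozen
      have h1 : ∃ b : Ts S, (T.node x (T.node a b.1)).num ∉ Fz := by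
        by_contra hcon
        push Not at hcon
        have h3 := Nat.card_le_card_of_injective
          (fun b : Ts S => (⟨(T.node x (T.node a b.1)).num, hcon b⟩ : Fz)) (by
            intro b b' hbb
            exact Subtype.ext (node_inj (congrArg Subtype.val hbb)).2)
        rw [Nat.card_eq_fintype_card (α := Fz), Fintype.card_coe] at h3
        have h4 : cnt S = Nat.card (Ts S) := rfl
        omega
      obtain ⟨b, hb⟩ := h1
      refine ⟨b.1, by have := b.2; omega, ?_⟩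
      unfold GG
      rw [if_neg hb, if_pos ⟨_, _, rfl⟩, decide_eq_true_iff]
      exact Or.inr ⟨a, b.1, rfl, b₀, hb₀⟩

end

end Sparse

/-- The set accepted by a clocked program. -/
def AccS (O : Om) (c : OCode) (κ : ℕ) : Set T := {x | Accepts O c κ x}

/-- The program `c` with clock `κ` and the exponent `k` define, in `Σ^p_2`, the part of `LL G` in
the set accepted by `(cD, κD)`, relative to `join A G`. -/
def DefinesS (A : Om) (c : OCode) (κ k : ℕ) (cD : OCode) (κD : ℕ) (G : Om) : Prop :=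
  HaltsWithin (join A G) c κ ∧
  ∀ x, (x ∈ LL G ∧ Accepts (join A G) cD κD x) ↔ ∃ u : T, u.size ≤ (x.size + 2) ^ k ∧
    ∀ w : T, w.size ≤ (x.size + 2) ^ k → Accepts (join A G) c κ (T.node x (T.node u w))

theorem exists_large {D : Set T} (hD : D.Infinite) (S₀ : ℕ) : ∃ x ∈ D, S₀ ≤ x.size := by
  by_contra hcon
  push Not at hcon
  apply hD
  have hfin : Set.Finite {a : T | a.size ≤ S₀} := by
    have : Finite (DIAG.Ts S₀) := inferInstance
    exact this
  exact hfin.subset fun x hx => (hcon x hx).le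

open DIAG Sparse in
theorem DIAGS (hcount : Stmt_COUNT) (A : Om) (c : OCode) (κ k : ℕ) (cD : OCode) (κD : ℕ)
    (s : T) (G : Om) (hG : Cond s G) (hD : (AccS (join A G) cD κD).Infinite) :
    ∃ G' : Om, Cond s G' ∧ ¬ DefinesS A c κ k cD κD G' := by
  classical
  by_contra hcon
  push Not at hcon
  obtain ⟨S₀, hS₀⟩ := Sparse.sizes k κ κD s.size
  obtain ⟨x, hxD, hxS⟩ := exists_large hD S₀
  obtain ⟨q, hq1, hq2, hq3⟩ := Accepts.loc hxD
  obtain ⟨S, hx⟩ : ∃ S, x.size = S := ⟨_, rfl⟩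
  -- the frozen positions
  obtain ⟨Fz, hFz⟩ : ∃ Fz : Finset ℕ, Fz = q.image (fun n => n / 2) ∪
    (s.toL.map fun a => bn a.right).toFinset := ⟨_, rfl⟩
  have hlen : s.toL.length ≤ s.size := by
    have : ∀ t : T, t.toL.length ≤ t.size := by
      intro t
      induction t with
      | leaf => simp [T.toL]
      | node a b _ ih => simp only [T.toL, List.length_cons, T.size]; omega
    exact this s
  have hFc : Fz.card ≤ (S + 2) ^ κD + s.size := by
    rw [hFz, ← hx]
    refine (Finset.card_union_le _ _).trans (Nat.add_le_add ?_ ?_)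
    · exact Finset.card_image_le.trans hq1
    · refine (List.toFinset_card_le _).trans ?_
      rw [List.length_map]
      exact hlen
  obtain ⟨h4w, h8w, hn, hFlt⟩ := hS₀ S (by omega) (nT S x Fz)
    ((cnt_le_nT S x Fz).trans (by omega))
  set w := ww S k κ with hwdef
  have hw1 : 1 ≤ w := Nat.one_le_pow _ _ (by omega)
  let s0 : Fin (8 * w) := ⟨0, by omega⟩
  set B := (S + 2) ^ k with hB
  have hcond : ∀ h : Cfg (nT S x Fz) (cnt S * cnt S) (Fin (8 * w)),
      Cond s (Sparse.GG S x Fz s0 G h) := by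
    intro h a ha
    rw [GG_frozen S x Fz s0 G h (n := bn a.right) (by
      rw [hFz, Finset.mem_union]
      right
      rw [List.mem_toFinset, List.mem_map]
      exact ⟨a, ha, rfl⟩)]
    exact hG a ha
  have hdef : ∀ h : Cfg (nT S x Fz) (cnt S * cnt S) (Fin (8 * w)),
      DefinesS A c κ k cD κD (Sparse.GG S x Fz s0 G h) := fun h => hcon _ (hcond h)
  have haccD : ∀ h : Cfg (nT S x Fz) (cnt S * cnt S) (Fin (8 * w)),
      Accepts (join A (Sparse.GG S x Fz s0 G h)) cD κD x := by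
    intro h
    refine hq3 _ fun n hn => ?_
    unfold RO.join
    split_ifs with h1
    · rfl
    · refine GG_frozen S x Fz s0 G h ?_
      rw [hFz, Finset.mem_union]
      exact Or.inl (Finset.mem_image_of_mem _ hn)
  let Q : ℕ → Set (Cfg (nT S x Fz) (cnt S * cnt S) (Fin (8 * w))) := fun i =>
    {h | ∀ hi : i < cnt B, ∀ v : T, v.size ≤ B →
      Accepts (join A (Sparse.GG S x Fz s0 G h)) c κ (T.node x (T.node (enm B ⟨i, hi⟩).1 v))}
  have hY : 8 * w * nT S x Fz ≤ cnt S * cnt S := by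
    refine Nat.mul_le_mul h8w ?_
    rw [nT, cnt]
    exact Nat.card_le_card_of_injective _ Subtype.val_injective
  obtain ⟨h, hh⟩ := hcount (nT S x Fz) (cnt S * cnt S) w (cnt B) hw1 h4w hY hn Q s0 (by
    intro i hi h hhQ
    have hhQ' : ∃ v : T, v.size ≤ B ∧ ¬ Accepts (join A (Sparse.GG S x Fz s0 G h)) c κ
        (T.node x (T.node (enm B ⟨i, hi⟩).1 v)) := by
      by_contra hc2
      push Not at hc2
      exact hhQ fun _ => hc2
    obtain ⟨v, hv, hnacc⟩ := hhQ'
    obtain ⟨y, t, hev, ht⟩ := (hdef h).1 (T.node x (T.node (enm B ⟨i, hi⟩).1 v))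
    have hy : y = T.leaf := by
      by_contra hy
      exact hnacc ⟨y, t, hev, ht, hy⟩
    obtain ⟨q, hq1, -, hq3⟩ := hev.loc
    have hu := (enm B ⟨i, hi⟩).2
    have htw : t ≤ w := by
      refine ht.trans (Nat.pow_le_pow_left ?_ _)
      simp only [T.size]
      omega
    refine ⟨Finset.univ.filter fun p => 2 * pos S x Fz p.1 p.2 + 1 ∈ q, ?_, ?_⟩
    · refine le_trans ?_ (hq1.trans htw)
      refine Finset.card_le_card_of_injOn (fun p => 2 * pos S x Fz p.1 p.2 + 1) ?_ ?_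
      · intro p hp
        exact (Finset.mem_filter.1 hp).2
      · intro p _ p' _ hpp
        have h1 : pos S x Fz p.1 p.2 = pos S x Fz p'.1 p'.2 := by
          have h2 : 2 * pos S x Fz p.1 p.2 + 1 = 2 * pos S x Fz p'.1 p'.2 + 1 := hpp
          omega
        obtain ⟨e1, e2⟩ := pos_inj S x Fz h1
        exact Prod.ext e1 e2
    · intro h' hh' hQ'
      have hagree := GG_agree S x Fz s0 G (Q := q) (A := A) (h := h) (h' := h') (by
        intro i' j' hm
        exact hh' (i', j') (Finset.mem_filter.2 ⟨Finset.mem_univ _, hm⟩))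
      have hev' := hq3 _ hagree
      obtain ⟨y', t', hev2, -, hy'⟩ := hQ' hi v hv
      exact hy' ((hev'.det hev2).1.symm.trans hy))
  apply hh
  rw [← LL_iff S x Fz s0 G hx (by omega) h]
  have h1 : x ∈ LL (Sparse.GG S x Fz s0 G h) ↔ (x ∈ LL (Sparse.GG S x Fz s0 G h) ∧
      Accepts (join A (Sparse.GG S x Fz s0 G h)) cD κD x) := ⟨fun h2 => ⟨h2, haccD h⟩, And.left⟩
  rw [h1, (hdef h).2 x, hx, ← hB]
  constructor
  · rintro ⟨i, hi, hQ⟩
    exact ⟨(enm B ⟨i, hi⟩).1, (enm B ⟨i, hi⟩).2, hQ hi⟩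
  · rintro ⟨u, hu, hacc⟩
    obtain ⟨i, hi⟩ := (enm B).surjective ⟨u, hu⟩
    refine ⟨i, i.2, fun hi' v hv => ?_⟩
    have : (enm B ⟨i, hi'⟩).1 = u := by
      have e : (⟨(i : ℕ), hi'⟩ : Fin (cnt B)) = i := rfl
      rw [e, hi]
    rw [this]
    exact hacc v hv

open OPEN in
theorem OPENS (A : Om) (c : OCode) (κ k : ℕ) (cD : OCode) (κD : ℕ) :
    IsOpen {G | ¬ DefinesS A c κ k cD κD G} := by
  have hdep : ∀ x : T, ∃ B : ℕ, ∀ G G' : Om, (∀ n < B, G' n = G n) →
      ((x ∈ LL G ∧ Accepts (join A G) cD κD x) ↔ ∃ u : T, u.size ≤ (x.size + 2) ^ k ∧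
        ∀ w : T, w.size ≤ (x.size + 2) ^ k →
          Accepts (join A G) c κ (T.node x (T.node u w))) →
      ((x ∈ LL G' ∧ Accepts (join A G') cD κD x) ↔ ∃ u : T, u.size ≤ (x.size + 2) ^ k ∧
        ∀ w : T, w.size ≤ (x.size + 2) ^ k →
          Accepts (join A G') c κ (T.node x (T.node u w))) := by
    intro x
    obtain ⟨N, hN⟩ : ∃ N, N = (x.size + 2 * (x.size + 2) ^ k + 4) ^ κ + (4 * x.size + 10) +
      (x.size + 2) ^ κD := ⟨_, rfl⟩
    have hN1 : ∀ u w : T, u.size ≤ (x.size + 2) ^ k → w.size ≤ (x.size + 2) ^ k →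
        ((T.node x (T.node u w)).size + 2) ^ κ ≤ N := by
      intro u w hu hw
      have : ((T.node x (T.node u w)).size + 2) ^ κ ≤
          (x.size + 2 * (x.size + 2) ^ k + 4) ^ κ := by
        refine Nat.pow_le_pow_left ?_ κ
        simp only [T.size]
        omega
      omega
    have key1 : ∀ G G' : Om, (∀ n < 2 ^ N, G' n = G n) →
        ((∃ u : T, u.size ≤ (x.size + 2) ^ k ∧ ∀ w : T, w.size ≤ (x.size + 2) ^ k →
          Accepts (join A G) c κ (T.node x (T.node u w))) →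
        ∃ u : T, u.size ≤ (x.size + 2) ^ k ∧ ∀ w : T, w.size ≤ (x.size + 2) ^ k →
          Accepts (join A G') c κ (T.node x (T.node u w))) := by
      rintro G G' h ⟨u, hu, h1⟩
      exact ⟨u, hu, fun w hw => accepts_dep (hN1 u w hu hw) h (h1 w hw)⟩
    have key2 : ∀ G G' : Om, (∀ n < 2 ^ N, G' n = G n) →
        (x ∈ LL G ∧ Accepts (join A G) cD κD x) → (x ∈ LL G' ∧ Accepts (join A G') cD κD x) := by
      rintro G G' h ⟨h1, h2⟩
      exact ⟨LL_dep (by omega) h h1, accepts_dep (by omega) h h2⟩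
    refine ⟨2 ^ N, fun G G' h hv => ?_⟩
    have h' : ∀ n < 2 ^ N, G n = G' n := fun n hn => (h n hn).symm
    exact ⟨fun hx => key1 G G' h (hv.1 (key2 G' G h' hx)),
      fun hu => key2 G G' h (hv.2 (key1 G' G h' hu))⟩
  have h1 : {G : Om | ¬ DefinesS A c κ k cD κD G} =
      (⋃ x : T, {G : Om | ¬ ∃ (y : T) (t : ℕ),
        EvalO (join A G) c x y t ∧ t ≤ (x.size + 2) ^ κ}) ∪
      ⋃ x : T, {G : Om | ¬ ((x ∈ LL G ∧ Accepts (join A G) cD κD x) ↔
        ∃ u : T, u.size ≤ (x.size + 2) ^ k ∧ ∀ w : T, w.size ≤ (x.size + 2) ^ k →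
          Accepts (join A G) c κ (T.node x (T.node u w)))} := by
    ext G
    simp only [Set.mem_ofPred_eq, Set.mem_union, Set.mem_iUnion]
    unfold DefinesS HaltsWithin
    rw [not_and_or, not_forall, not_forall]
  rw [h1]
  exact (isOpen_iUnion fun x => isOpen_of_dep_not (halts_dep A c κ x)).union
    (isOpen_iUnion fun x => isOpen_of_dep_not (hdep x))

/-- For comeager many `G` no infinite set in P has all its `Π^p_2` subsets in `Σ^p_2`, because of
the subset of the elements of `LL G`. -/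
theorem PHTWOS (hcount : Stmt_COUNT) (A : Om) : ∀ᶠ G in residual Om,
    ∀ D : Set T, D.Infinite → InP (join A G) D → ¬ InSigma2 (join A G) (LL G ∩ D) := by
  have : Countable OCode := CNT_thm
  have key : ∀ᶠ G in residual Om, ∀ (c : OCode) (κ k : ℕ) (cD : OCode) (κD : ℕ),
      (AccS (join A G) cD κD).Infinite → ¬ DefinesS A c κ k cD κD G := by
    rw [eventually_countable_forall]
    intro c
    rw [eventually_countable_forall]
    intro κ
    rw [eventually_countable_forall]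
    intro k
    rw [eventually_countable_forall]
    intro cD
    rw [eventually_countable_forall]
    intro κD
    filter_upwards [GENERIC_thm {G | ¬ DefinesS A c κ k cD κD G} (OPENS A c κ k cD κD)]
      with G hG hD
    rcases hG with hG | ⟨s, hs, hs'⟩
    · exact hG
    · obtain ⟨G', hG', hd⟩ := DIAGS hcount A c κ k cD κD s G hs hD
      exact absurd hd (hs' G' hG')
  filter_upwards [key] with G hG D hDinf hDP
  rintro ⟨E, k, ⟨f, ⟨c, κ, hc⟩, hf⟩, hE⟩
  obtain ⟨g, ⟨cD, κD, hcD⟩, hg⟩ := hDP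
  have hA : ∀ y, y ∈ E ↔ Accepts (join A G) c κ y := by
    intro y
    obtain ⟨t, h, ht⟩ := hc y
    rw [accepts_iff h ht, hf]
  have hB : ∀ y, y ∈ D ↔ Accepts (join A G) cD κD y := by
    intro y
    obtain ⟨t, h, ht⟩ := hcD y
    rw [accepts_iff h ht, hg]
  have hBD : AccS (join A G) cD κD = D := by
    ext y
    exact (hB y).symm
  apply hG c κ k cD κD (by rw [hBD]; exact hDinf)
  refine ⟨fun x => ?_, fun x => ?_⟩
  · obtain ⟨t, h, ht⟩ := hc x
    exact ⟨f x, t, h, ht⟩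
  · have := hE x
    rw [Set.mem_inter_iff, hB] at this
    rw [this]
    simp only [hA]

open PITWO in
/-- The part of `LL G` in a set in P is in `Π^p_2`. -/
theorem PITWOS (A G : Om) (D : Set T) (hD : InP (join A G) D) :
    InPi2 (join A G) (LL G ∩ D) := by
  obtain ⟨E, k, hE, hL⟩ := PITWO_thm A G
  obtain ⟨f, hf, hfD⟩ := hD
  obtain ⟨g, hg, hgE⟩ := hE
  have hf' : PolyOn {join A G} (fun _ => f) := by
    obtain ⟨c, k, h⟩ := hf
    exact ⟨c, k, fun O hO x => by rw [Set.mem_singleton_iff.1 hO]; exact h x⟩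
  have hg' : PolyOn {join A G} (fun _ => g) := by
    obtain ⟨c, k, h⟩ := hg
    exact ⟨c, k, fun O hO x => by rw [Set.mem_singleton_iff.1 hO]; exact h x⟩
  have h1 : DecOn {join A G} (fun _ y => y ∈ E ∨ ¬ y.left ∈ D) := by
    refine DecOn.or ⟨fun _ => g, hg', fun _ _ y => hgE y⟩ (DecOn.not ?_)
    exact ⟨fun _ y => f y.left, hf'.comp (PolyOn.of_poly PolyTime.left'), fun _ _ y => hfD _⟩
  obtain ⟨F, hF, hFd⟩ := h1
  refine ⟨{y | y ∈ E ∨ ¬ y.left ∈ D}, k, ⟨F (join A G), hF.polyTimeO (Set.mem_singleton _),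
    fun y => hFd _ (Set.mem_singleton _) y⟩, fun x => ?_⟩
  have h2 : x ∈ (LL G ∩ D)ᶜ ↔ x ∈ (LL G)ᶜ ∨ ¬ x ∈ D := by
    simp only [Set.mem_compl_iff, Set.mem_inter_iff]
    tauto
  rw [h2, hL x]
  constructor
  · rintro (⟨u, hu, hw⟩ | h3)
    · exact ⟨u, hu, fun w hw' => Or.inl (hw w hw')⟩
    · exact ⟨T.leaf, Nat.one_le_pow _ _ (by omega), fun w _ => Or.inr h3⟩
  · rintro ⟨u, hu, hw⟩
    by_cases h3 : x ∈ D
    · refine Or.inl ⟨u, hu, fun w hw' => ?_⟩
      rcases hw w hw' with h4 | h4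
      · exact h4
      · exact absurd h3 h4
    · exact Or.inr h3

/-- The main theorem, for sparse sets. -/
def Stmt_MAINS : Prop := ∃ A : Om, ∀ᶠ G in residual Om,
  (∀ D : Set T, D.Infinite → InP (join A G) D →
    ∃ L ⊆ D, InPi2 (join A G) L ∧ ¬ InSigma2 (join A G) L) ∧
  ∀ (μ : Fm) (P : OCode → ℕ → Fm), IsUniversal μ → IsFormalisation μ P →
    ¬ ReflectionConjecture (join A G) μ P

theorem MAINS_thm (h1 : Stmt_BASE) (h2 : Stmt_FAILS) (h3 : Stmt_COUNT) : Stmt_MAINS := by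
  obtain ⟨A, hA⟩ := h1
  refine ⟨A, ?_⟩
  filter_upwards [h2 A hA, PHTWOS h3 A] with G hF hP
  exact ⟨fun D hD hDP => ⟨LL G ∩ D, Set.inter_subset_right, PITWOS A G D hDP, hP D hD hDP⟩, hF⟩

end Pool.Agent.RD
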