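import Pool.Agent.RD.BASE
import Pool.Agent.RD.ANSDEC
import Pool.Agent.RD.SCLASS
import Pool.Agent.RD.LOCB
import Pool.Agent.RD.RFNLOC
import Pool.Agent.RD.GENERIC
import Pool.Agent.RD.CONSTR
import Pool.Agent.RD.RFNTRUE
import Pool.Agent.RD.FAILS
import Pool.Agent.RD.PITWO
import Pool.Agent.RD.COUNT
import Pool.Agent.RD.DIAG
import Pool.Agent.RD.OPEN
import Pool.Agent.RD.PHTWO
import Pool.Agent.RD.MAIN
import Pool.Agent.RD.Sparse
import Pool.Agent.RH.HIT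
import Pool.Agent.RH.PUSH
import Pool.Agent.RH.RES
import Pool.Agent.RH.BADA
import Pool.Agent.RH.BADB
import Pool.Agent.RH.BAD
import Pool.Agent.RH.FIN

/-! # The failure of the reflection conjecture relative to comeager many oracles, assembled -/

namespace Pool.Agent.RD

theorem fin' : RH.Stmt_FIN :=
  RH.FIN_thm (RH.RES_thm RH.PUSH_thm) (RH.BAD_thm (RH.BADA_thm RH.PUSH_thm RH.HIT_thm) RH.BADB_thm)

theorem main : Stmt_MAIN :=
  MAIN_thm BASE_thm
    (FAILS_thm (SCLASS_thm ANSDEC_thm) (RFNLOC_thm LOCB_thm) GENERIC_thm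
      (CONSTR_thm (RFNLOC_thm LOCB_thm)) RFNTRUE_thm)
    PITWO_thm (PHTWO_thm (DIAG_thm (COUNT_thm fin')) OPEN_thm GENERIC_thm)

theorem mainS : Stmt_MAINS :=
  MAINS_thm BASE_thm
    (FAILS_thm (SCLASS_thm ANSDEC_thm) (RFNLOC_thm LOCB_thm) GENERIC_thm
      (CONSTR_thm (RFNLOC_thm LOCB_thm)) RFNTRUE_thm)
    (COUNT_thm fin')

end Pool.Agent.RD
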