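import Pool.Agent.RD.Cst

/-!
# BASE: an oracle which answers questions about forcing
-/

namespace Pool.Agent.RD

open Pool.Agent.H19 (T PolyTime PolyDec PolyNat PolyN Tm scons bn bl ofBool encL vec3)
open Pool.Agent.RO

/-- `Forced B m θ s` depends only on the bits of `B` below `m`. -/
theorem forced_congr {B C : Om} {m : ℕ} (h : ∀ k < m, B k = C k) (θ : Fm) (s : T) :
    Forced B m θ s ↔ Forced C m θ s := by
  unfold Forced
  constructor
  · intro H B' hB'
    exact H B' (fun k hk => (hB' k hk).trans (h k hk).symm)
  · intro H B' hB'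
    exact H B' (fun k hk => (hB' k hk).trans (h k hk))

open Classical in
/-- The base oracle. -/
noncomputable def baseO : ℕ → Bool := fun m =>
  Nat.strongRec (motive := fun _ => Bool) (fun m ih =>
    decide (∃ z : T, z.num = m ∧
      Forced (fun k => if h : k < m then ih k h else false) m (decFm z.left) z.right.left)) m

theorem baseO_eq (m : ℕ) : baseO m = true ↔ ∃ z : T, z.num = m ∧
    Forced (fun k => if k < m then baseO k else false) m (decFm z.left) z.right.left := by
  unfold baseO
  rw [Nat.strongRec_eq]
  simp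

theorem BASE_thm : Stmt_BASE := by
  refine ⟨baseO, fun m => ?_⟩
  rw [baseO_eq]
  constructor
  · rintro ⟨z, hz, h⟩
    refine ⟨z, hz, (forced_congr ?_ _ _).1 h⟩
    intro k hk
    simp [hk]
  · rintro ⟨z, hz, h⟩
    refine ⟨z, hz, (forced_congr ?_ _ _).2 h⟩
    intro k hk
    simp [hk]

end Pool.Agent.RD
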