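import Pool.Agent.RD.Defs
import Pool.Agent.RO.PROGRAM
import Pool.Agent.RH.StmtsU
import Pool.Agent.RH.PDefs
import Mathlib

/-!
# Category versus measure: over a suitable base oracle `A`, for comeager many oracles `G`, the
reflection conjecture fails relative to `A ⊕ G` although the second level of the polynomial
hierarchy does not collapse. Definitions and statements of the modules
-/

open Filter Topology

namespace Pool.Agent.RD

open Pool.Agent.H19 (T PolyTime PolyDec PolyNat PolyN Tm scons bn bl ofBool encL vec3)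
open Pool.Agent.RO
open Pool.Agent.RH (padF unpad Cfg LocF dead Stmt_FIN)

/-! ### Conditions and forcing -/

/-- `G` satisfies the finite condition coded by `s`: a list of trees `node b x`, which say that the
bit `bn x` of `G` is `true` iff `b ≠ leaf`. -/
def Cond (s : T) (G : Om) : Prop := ∀ a ∈ s.toL, (G (bn a.right) = true ↔ a.left ≠ T.leaf)

/-- The formula `θ` is true in `join B' G`, for all `B'` which agree with `B` below `m` and all
`G` which satisfy the condition `s`. -/
def Forced (B : Om) (m : ℕ) (θ : Fm) (s : T) : Prop :=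
  ∀ B' : Om, (∀ k < m, B' k = B k) → ∀ G : Om, Cond s G → ∀ v, θ.sat (stdN (join B' G)) v

/-- The base oracle `A` answers questions about forcing. -/
def IsBase (A : Om) : Prop := ∀ m : ℕ, A m = true ↔
  ∃ z : T, z.num = m ∧ Forced A m (decFm z.left) z.right.left

/-- BASE: there is such an oracle. -/
def Stmt_BASE : Prop := ∃ A : Om, IsBase A

/-- The test for additional axioms: `z` codes a formula, a condition satisfied by the odd part of
the oracle, and the even part of the oracle says that the formula is forced. -/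
def Ans (O : Om) (z : T) : Prop :=
  (∀ a ∈ z.right.left.toL, (O (2 * bn a.right + 1) = true ↔ a.left ≠ T.leaf)) ∧
    O (2 * z.num) = true

/-- The theory `S`: `S^1_2(O)`, the diagram, and all forced formulas. -/
def SS (O : Om) : Set Fm :=
  {φ | φ ∈ S12 ∨ φ ∈ diag O ∨ ∃ z : T, φ = padF z (decFm z.left) ∧ Ans O z}

/-- ANSDEC: the additional axioms are decidable in polynomial time. -/
def Stmt_ANSDEC : Prop := DecOn Set.univ (fun O x =>
  (padF (unfalsum x) (decFm (unfalsum x).left)).enc = x ∧ Ans O (unfalsum x))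

/-- SCLASS: the theory `S` belongs to the class. -/
def Stmt_SCLASS : Prop := ∀ A : Om, IsBase A → ∀ G : Om, InClassT (join A G) (SS (join A G))

/-! ### Locality of truth -/

/-- LOCB: the truth of a bounded formula depends only on bits at positions of polynomial length. -/
def Stmt_LOCB : Prop := ∀ φ : Fm, φ.bdd = true → ∃ k : ℕ, ∀ (L : ℕ) (v : ℕ → ℕ),
  (∀ i, (v i).size ≤ L) → ∀ O O' : Om, (∀ n : ℕ, n.size ≤ (L + 2) ^ k → O' n = O n) →
    (φ.sat (stdN O) v ↔ φ.sat (stdN O') v)

/-- RFNLOC: the same for the reflection sentences. -/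
def Stmt_RFNLOC : Prop := ∀ P μ : Fm, P.bdd = true → μ.bdd = true → P.fvBelow 4 → μ.fvBelow 4 →
  ∃ k : ℕ, ∀ (n : ℕ) (O O' : Om), (∀ i : ℕ, i.size ≤ (n + 2) ^ k → O' i = O i) →
    ∀ v v' : ℕ → ℕ, ((rfn P μ n).sat (stdN O) v ↔ (rfn P μ n).sat (stdN O') v')

/-- GENERIC: a generic oracle is in a given open set or satisfies a condition which forbids it. -/
def Stmt_GENERIC : Prop := ∀ U : Set Om, IsOpen U →
  ∀ᶠ G in residual Om, G ∈ U ∨ ∃ s : T, Cond s G ∧ ∀ G' : Om, Cond s G' → G' ∉ U

/-- CONSTR: if a condition satisfied by `G` forces all reflection sentences then their `S`-proofs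
can be constructed in polynomial time. -/
def Stmt_CONSTR : Prop := ∀ A : Om, IsBase A → ∀ G : Om, ∀ P μ : Fm, P.bdd = true →
  μ.bdd = true → P.fvBelow 4 → μ.fvBelow 4 → ∀ s : T, Cond s G →
  (∀ G' : Om, Cond s G' → ∀ (n : ℕ) v, (rfn P μ n).sat (stdN (join A G')) v) →
  ∃ f : T → T, PolyTime f ∧ ∀ n : ℕ, ∃ π : List Step,
    f (T.unary n) = encProof π ∧ IsProof (SS (join A G)) π (rfn P μ n)

/-- RFNTRUE: the reflection sentences of a consistent theory of the class are true. -/
def Stmt_RFNTRUE : Prop := ∀ (μ : Fm), IsUniversal μ → ∀ (P : OCode → ℕ → Fm),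
  IsFormalisation μ P → ∀ (O : Om) (c : OCode) (κ : ℕ), Consistent (theory O c κ) →
  ∀ (n : ℕ) v, (rfn (P c κ) μ n).sat (stdN O) v

/-- FAILS: the conjecture fails for comeager many oracles. -/
def Stmt_FAILS : Prop := ∀ A : Om, IsBase A → ∀ᶠ G in residual Om,
  ∀ (μ : Fm) (P : OCode → ℕ → Fm), IsUniversal μ → IsFormalisation μ P →
    ¬ ReflectionConjecture (join A G) μ P

/-! ### The second level of the polynomial hierarchy -/

/-- The language: for all `a` of at most the size of `x` there is a `b` of at most twice the size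
of `x` plus one, such that the bit number `num (node x (node a b))` of `G` is `true`. -/
def LL (G : Om) : Set T :=
  {x | ∀ a : T, a.size ≤ x.size → ∃ b : T, b.size ≤ 2 * x.size + 1 ∧
    G (T.node x (T.node a b)).num = true}

/-- PITWO: the language is in `Π^p_2`. -/
def Stmt_PITWO : Prop := ∀ A G : Om, InPi2 (join A G) (LL G)

/-- The program `c` with clock `κ` and the exponent `k` define `LL G` in `Σ^p_2`, relative to
`O = join A G`. -/
def Defines (A : Om) (c : OCode) (κ k : ℕ) (G : Om) : Prop :=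
  HaltsWithin (join A G) c κ ∧
  ∀ x, x ∈ LL G ↔ ∃ u : T, u.size ≤ (x.size + 2) ^ k ∧
    ∀ w : T, w.size ≤ (x.size + 2) ^ k → Accepts (join A G) c κ (T.node x (T.node u w))

/-- COUNT: a union of few events, each with a complement witnessed by few blocks, is not the event
that no target is dead. -/
def Stmt_COUNT : Prop := ∀ (N Y w n : ℕ), 1 ≤ w → 4 * w ≤ N → 8 * w * N ≤ Y →
  8 * n < 2 ^ (N / (32 * w)) → ∀ Q : ℕ → Set (Cfg N Y (Fin (8 * w))),
  ∀ s : Fin (8 * w), (∀ i < n, ∀ h, h ∉ Q i → LocF w (Q i)ᶜ h) →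
  ∃ h : Cfg N Y (Fin (8 * w)), ¬ ((∃ i < n, h ∈ Q i) ↔ ∀ x, h ∉ dead s x)

/-- DIAG: below every condition some oracle is not defined. -/
def Stmt_DIAG : Prop := ∀ (A : Om) (c : OCode) (κ k : ℕ) (s : T) (G : Om), Cond s G →
  ∃ G' : Om, Cond s G' ∧ ¬ Defines A c κ k G'

/-- OPEN: not being defined is an open property. -/
def Stmt_OPEN : Prop := ∀ (A : Om) (c : OCode) (κ k : ℕ), IsOpen {G | ¬ Defines A c κ k G}

/-- PHTWO: the second level does not collapse, over any base oracle. -/
def Stmt_PHTWO : Prop := ∀ A : Om, ∀ᶠ G in residual Om, ¬ InSigma2 (join A G) (LL G)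

/-- The main theorem. -/
def Stmt_MAIN : Prop := ∃ A : Om, ∀ᶠ G in residual Om,
  (∃ L : Set T, InPi2 (join A G) L ∧ ¬ InSigma2 (join A G) L) ∧
  ∀ (μ : Fm) (P : OCode → ℕ → Fm), IsUniversal μ → IsFormalisation μ P →
    ¬ ReflectionConjecture (join A G) μ P

end Pool.Agent.RD
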