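import Pool.Agent.RO.Defs

/-!
# Classes of sets of trees relative to an oracle
-/

namespace Pool.Agent.RD

open Pool.Agent.H19 (T)
open Pool.Agent.RO

/-- `L` is decidable in polynomial time relative to `O`. -/
def InP (O : Om) (L : Set T) : Prop := ∃ f : T → T, PolyTimeO O f ∧ ∀ x, x ∈ L ↔ f x ≠ T.leaf

/-- `L` is in `Σ^p_2` relative to `O`. -/
def InSigma2 (O : Om) (L : Set T) : Prop := ∃ (D : Set T) (k : ℕ), InP O D ∧
  ∀ x, x ∈ L ↔ ∃ u : T, u.size ≤ (x.size + 2) ^ k ∧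
    ∀ w : T, w.size ≤ (x.size + 2) ^ k → T.node x (T.node u w) ∈ D

/-- `L` is in `Π^p_2` relative to `O`. -/
def InPi2 (O : Om) (L : Set T) : Prop := InSigma2 O Lᶜ

end Pool.Agent.RD
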